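import Mathlib

set_option autoImplicit false

/-! Power series at `e ^ (-t)` of additive convolutions with nonnegative weights of subexponential
growth: a one-sided bound for the summatory function of the convolution, relative to the summatory
function of the weight, gives a one-sided bound for the power series of the other factor. -/

open Filter Topology Finset

namespace Pool.Agent.L5helper6.AD

noncomputable section

/-- the additive convolution -/
def conv (w f : ℕ → ℝ) (n : ℕ) : ℝ := ∑ p ∈ antidiagonal n, w p.1 * f p.2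

/-- the summatory function -/
def cum (a : ℕ → ℝ) (N : ℕ) : ℝ := ∑ n ∈ range (N + 1), a n

/-- the power series at `e ^ (-t)` -/
def P (a : ℕ → ℝ) (t : ℝ) : ℝ := ∑' n : ℕ, a n * Real.exp (-(n * t))

/-- absolute convergence at `e ^ (-t)` -/
def Sm (a : ℕ → ℝ) (t : ℝ) : Prop := Summable fun n : ℕ => ‖a n * Real.exp (-(n * t))‖

/-- subexponential growth -/
def Sub (a : ℕ → ℝ) : Prop := ∀ ε : ℝ, 0 < ε → ∃ C : ℝ, ∀ n : ℕ, |a n| ≤ C * Real.exp ((n : ℝ) ^ ε)

lemma exp_pow (n : ℕ) (t : ℝ) : Real.exp (-(n * t)) = Real.exp (-t) ^ n := by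
  rw [← Real.exp_nat_mul]
  congr 1
  ring

lemma exp_lt {t : ℝ} (ht : 0 < t) : Real.exp (-t) < 1 := Real.exp_lt_one_iff.2 (by linarith)

lemma pow_le_pow {a b c : ℝ} (hab : a < b) (hc : 0 < c) : ∀ᶠ x : ℝ in atTop, x ^ a ≤ c * x ^ b := by
  have h := (tendsto_rpow_atTop (show 0 < b - a by linarith)).eventually_ge_atTop (1 / c)
  filter_upwards [h, eventually_gt_atTop (0:ℝ)] with x hx h0
  rw [div_le_iff₀ hc] at hx
  calc x ^ a = x ^ a * 1 := (mul_one _).symm
    _ ≤ x ^ a * (x ^ (b - a) * c) := mul_le_mul_of_nonneg_left hx (by positivity)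
    _ = c * x ^ b := by
        rw [Real.rpow_sub h0]
        field_simp

/-- `n t` beats `n ^ ε` -/
lemma tail_bound {e : ℝ} (he : 0 < e) : ∃ C : ℝ, 0 < C ∧ ∀ n : ℕ,
    ((n : ℝ) + 1) * Real.exp ((n : ℝ) ^ (e / 2)) * Real.exp (-((n : ℝ) ^ e)) ≤ C / ((n : ℝ) + 1) ^ 2 := by
  have h1 : Tendsto (fun n : ℕ => ((n : ℝ) + 1) ^ 3 * Real.exp ((n : ℝ) ^ (e / 2)) * Real.exp (-((n : ℝ) ^ e)))
      atTop (𝓝 0) := by
    have h2 : Tendsto (fun x : ℝ => (x + 1) ^ 3 * Real.exp (x ^ (e / 2)) * Real.exp (-(x ^ e))) atTop (𝓝 0) := by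
      have k3 : ∀ᶠ x : ℝ in atTop, Real.log (x + 1) ≤ 1 / 12 * x ^ e := by
        have a0 := (isLittleO_log_rpow_atTop he).bound (show (0:ℝ) < 1 / 24 by norm_num)
        filter_upwards [a0, eventually_ge_atTop (2:ℝ)] with x a1 hx
        rw [Real.norm_of_nonneg (Real.log_nonneg (by linarith)), Real.norm_of_nonneg (by positivity)] at a1
        have : Real.log (x + 1) ≤ Real.log (x ^ 2) := Real.log_le_log (by linarith) (by nlinarith)
        rw [Real.log_pow] at this
        push_cast at this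
        linarith
      have k4 := pow_le_pow (show e / 2 < e by linarith) (show (0:ℝ) < 1 / 4 by norm_num)
      have k5 : Tendsto (fun x : ℝ => Real.exp (-(1 / 2 * x ^ e))) atTop (𝓝 0) := by
        refine Real.tendsto_exp_neg_atTop_nhds_zero.comp ?_
        exact (tendsto_rpow_atTop he).const_mul_atTop (by norm_num)
      refine squeeze_zero' ?_ ?_ k5
      · filter_upwards [eventually_ge_atTop (0:ℝ)] with x hx
        positivity
      · filter_upwards [k3, k4, eventually_ge_atTop (1:ℝ)] with x b1 b2 hx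
        have e1 : (x + 1) ^ 3 = Real.exp (3 * Real.log (x + 1)) := by
          rw [show (3:ℝ) * Real.log (x + 1) = Real.log ((x + 1) ^ 3) by rw [Real.log_pow]; norm_num]
          rw [Real.exp_log (by positivity)]
        rw [e1, ← Real.exp_add, ← Real.exp_add]
        exact Real.exp_le_exp.2 (by linarith)
    exact h2.comp tendsto_natCast_atTop_atTop
  obtain ⟨C, hC⟩ := h1.bddAbove_range
  refine ⟨max C 1, by positivity, fun n => ?_⟩
  have h3 := hC ⟨n, rfl⟩
  simp only at h3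
  have hn : (0:ℝ) < (n:ℝ) + 1 := by positivity
  rw [le_div_iff₀ (by positivity)]
  calc ((n : ℝ) + 1) * Real.exp ((n : ℝ) ^ (e / 2)) * Real.exp (-((n : ℝ) ^ e)) * ((n : ℝ) + 1) ^ 2
      = ((n : ℝ) + 1) ^ 3 * Real.exp ((n : ℝ) ^ (e / 2)) * Real.exp (-((n : ℝ) ^ e)) := by ring
    _ ≤ C := h3
    _ ≤ max C 1 := le_max_left _ _

lemma Sub.C_nonneg {a : ℕ → ℝ} {C ε : ℝ} (h : ∀ n : ℕ, |a n| ≤ C * Real.exp ((n : ℝ) ^ ε)) : 0 ≤ C := by
  by_contra hC
  push Not at hC
  have h2 : C * Real.exp (((0:ℕ) : ℝ) ^ ε) < 0 := mul_neg_of_neg_of_pos hC (Real.exp_pos _)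
  have := (abs_nonneg _).trans (h 0)
  linarith

/-- a series of subexponential growth converges absolutely at `e ^ (-t)` -/
lemma Sub.summable_mul {a : ℕ → ℝ} (ha : Sub a) {t : ℝ} (ht : 0 < t) :
    Summable fun n : ℕ => ((n : ℝ) + 1) * |a n| * Real.exp (-(n * t)) := by
  obtain ⟨C, hC⟩ := ha (1 / 2) (by norm_num)
  have hC0 : 0 ≤ C := Sub.C_nonneg hC
  have hs : Summable fun n : ℕ => C * (((n : ℝ) + 1) * Real.exp (-(n * (t / 2)))) := by
    refine Summable.mul_left _ ?_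
    have h1 : Summable fun n : ℕ => (n : ℝ) ^ 1 * Real.exp (-(t / 2)) ^ n :=
      summable_pow_mul_geometric_of_norm_lt_one 1 (by
        rw [Real.norm_of_nonneg (Real.exp_pos _).le]
        exact exp_lt (by linarith))
    have h2 : Summable fun n : ℕ => Real.exp (-(t / 2)) ^ n :=
      summable_geometric_of_lt_one (Real.exp_pos _).le (exp_lt (by linarith))
    refine (h1.add h2).congr fun n => ?_
    rw [exp_pow]
    ring
  have hev : ∀ᶠ n : ℕ in atTop, (n : ℝ) ^ (1 / 2 : ℝ) ≤ n * (t / 2) := by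
    have h := pow_le_pow (show (1 / 2 : ℝ) < 1 by norm_num) (show 0 < t / 2 by linarith)
    filter_upwards [tendsto_natCast_atTop_atTop.eventually h] with n hn
    rw [Real.rpow_one] at hn
    linarith
  refine Summable.of_norm_bounded_eventually_nat hs ?_
  filter_upwards [hev] with n hn
  rw [Real.norm_of_nonneg (by positivity)]
  have h1 := hC n
  calc ((n : ℝ) + 1) * |a n| * Real.exp (-(n * t))
      ≤ ((n : ℝ) + 1) * (C * Real.exp ((n : ℝ) ^ (1 / 2 : ℝ))) * Real.exp (-(n * t)) := by gcongr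
    _ ≤ ((n : ℝ) + 1) * (C * Real.exp (n * (t / 2))) * Real.exp (-(n * t)) := by gcongr
    _ = C * (((n : ℝ) + 1) * (Real.exp (n * (t / 2)) * Real.exp (-(n * t)))) := by ring
    _ = _ := by
        rw [← Real.exp_add]
        congr 3
        ring

lemma Sub.sm {a : ℕ → ℝ} (ha : Sub a) {t : ℝ} (ht : 0 < t) : Sm a t := by
  refine Summable.of_nonneg_of_le (fun n => norm_nonneg _) (fun n => ?_) (ha.summable_mul ht)
  rw [norm_mul, Real.norm_of_nonneg (Real.exp_pos _).le, Real.norm_eq_abs]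
  have : (0:ℝ) ≤ n := Nat.cast_nonneg n
  have h2 : 0 ≤ |a n| * Real.exp (-(n * t)) := by positivity
  nlinarith

lemma conv_term (w f : ℕ → ℝ) (t : ℝ) (n : ℕ) : conv w f n * Real.exp (-(n * t)) =
    ∑ p ∈ antidiagonal n, (w p.1 * Real.exp (-(p.1 * t))) * (f p.2 * Real.exp (-(p.2 * t))) := by
  unfold conv
  rw [Finset.sum_mul]
  refine Finset.sum_congr rfl fun p hp => ?_
  rw [HasAntidiagonal.mem_antidiagonal] at hp
  rw [← hp]
  push_cast
  rw [show -((p.1 + p.2 : ℝ) * t) = -(p.1 * t) + -(p.2 * t) by ring, Real.exp_add]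
  ring

lemma Sm.conv {w f : ℕ → ℝ} {t : ℝ} (hw : Sm w t) (hf : Sm f t) : Sm (conv w f) t := by
  refine (summable_norm_sum_mul_antidiagonal_of_summable_norm hw hf).congr fun n => ?_
  rw [conv_term]

/-- the power series of a convolution -/
lemma P_conv {w f : ℕ → ℝ} {t : ℝ} (hw : Sm w t) (hf : Sm f t) : P (conv w f) t = P w t * P f t := by
  unfold P
  rw [tsum_mul_tsum_eq_tsum_sum_antidiagonal_of_summable_norm hw hf]
  exact tsum_congr fun n => conv_term w f t n

lemma conv_one (a : ℕ → ℝ) : conv (fun _ => 1) a = cum a := by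
  funext N
  unfold conv cum
  simp only [one_mul]
  rw [Finset.Nat.sum_antidiagonal_eq_sum_range_succ (fun _ j => a j), ← Finset.sum_range_reflect]
  refine Finset.sum_congr rfl fun n hn => ?_
  rw [Finset.mem_range] at hn
  congr 1
  omega

lemma sm_one {t : ℝ} (ht : 0 < t) : Sm (fun _ => 1) t := by
  unfold Sm
  simp only [one_mul, exp_pow]
  refine (summable_geometric_of_lt_one (Real.exp_pos (-t)).le (exp_lt ht)).congr fun n => ?_
  rw [Real.norm_of_nonneg (by positivity)]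

lemma P_one {t : ℝ} (ht : 0 < t) : P (fun _ => 1) t = (1 - Real.exp (-t))⁻¹ := by
  unfold P
  simp only [one_mul, exp_pow]
  exact tsum_geometric_of_lt_one (Real.exp_pos _).le (exp_lt ht)

lemma Sm.cum {a : ℕ → ℝ} {t : ℝ} (ht : 0 < t) (ha : Sm a t) : Sm (cum a) t := by
  rw [← conv_one]
  exact (sm_one ht).conv ha

/-- the power series of the summatory function -/
lemma P_cum {a : ℕ → ℝ} {t : ℝ} (ht : 0 < t) (ha : Sm a t) :
    P (cum a) t = (1 - Real.exp (-t))⁻¹ * P a t := by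
  rw [← conv_one, P_conv (sm_one ht) ha, P_one ht]

/-- the summatory function dominates the terms -/
lemma cum_nonneg {w : ℕ → ℝ} (h0 : ∀ n, 0 ≤ w n) (N : ℕ) : 0 ≤ cum w N :=
  Finset.sum_nonneg fun n _ => h0 n

lemma le_cum {w : ℕ → ℝ} (h0 : ∀ n, 0 ≤ w n) {n N : ℕ} (h : n ≤ N) : w n ≤ cum w N :=
  Finset.single_le_sum (f := w) (fun i _ => h0 i) (Finset.mem_range.2 (by omega))

lemma sub_of_cum {w : ℕ → ℝ} (h0 : ∀ n, 0 ≤ w n) (h : Sub (cum w)) : Sub w := by
  intro ε hε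
  obtain ⟨C, hC⟩ := h ε hε
  refine ⟨C, fun n => le_trans ?_ (hC n)⟩
  rw [abs_of_nonneg (h0 n), abs_of_nonneg (cum_nonneg h0 n)]
  exact le_cum h0 le_rfl

/-- **The Abelian step.** A one-sided bound for the summatory function of the convolution. -/
theorem abel {w f : ℕ → ℝ} (h0 : ∀ n, 0 ≤ w n) (hne : ∃ n, w n ≠ 0) (hW : Sub (cum w)) (hf : Sub f)
    {θ κ C : ℝ} (hθ : 0 ≤ θ) (hθ1 : θ ≤ 1) (hκ : θ < κ)
    (hS : ∀ N : ℕ, cum (conv w f) N ≤ C * ((N : ℝ) + 1) ^ θ * cum w N) :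
    ∃ K : ℝ, ∀ t : ℝ, 0 < t → t ≤ 1 → P f t ≤ K * t ^ (-κ) := by
  obtain ⟨b, hb⟩ := hne
  have hb0 : 0 < w b := lt_of_le_of_ne (h0 b) (Ne.symm hb)
  have hw : Sub w := sub_of_cum h0 hW
  set C₁ : ℝ := max C 1 with hC₁
  have hC1 : 1 ≤ C₁ := le_max_right _ _
  have hS1 : ∀ N : ℕ, cum (conv w f) N ≤ C₁ * ((N : ℝ) + 1) ^ θ * cum w N := fun N =>
    (hS N).trans (by
      have h1 := cum_nonneg h0 N
      have h2 : (0:ℝ) ≤ ((N : ℝ) + 1) ^ θ := by positivity
      have : C ≤ C₁ := le_max_left _ _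
      gcongr)
  -- the parameter
  obtain ⟨ε, hε, hε2⟩ : ∃ ε : ℝ, 0 < ε ∧ (1 + ε) * θ ≤ κ := by
    refine ⟨κ - θ, by linarith, ?_⟩
    nlinarith
  set e : ℝ := ε / (1 + ε) with he
  have he0 : 0 < e := by positivity
  obtain ⟨Ct, hCt, htail⟩ := tail_bound he0
  obtain ⟨CW, hCW⟩ := hW (e / 2) (by positivity)
  have hCW0 : 0 ≤ CW := Sub.C_nonneg hCW
  have hsum2 : Summable fun N : ℕ => CW * (Ct / ((N : ℝ) + 1) ^ 2) := by
    refine Summable.mul_left _ ?_
    have h1 : Summable fun N : ℕ => 1 / ((N : ℝ) ^ 2) := Real.summable_one_div_nat_pow.2 (by norm_num)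
    have h2 := (summable_nat_add_iff 1).2 h1
    refine (h2.mul_left Ct).congr fun N => ?_
    push_cast
    ring
  set K1 : ℝ := ∑' N : ℕ, CW * (Ct / ((N : ℝ) + 1) ^ 2) with hK1
  have hK10 : 0 ≤ K1 := tsum_nonneg fun N => by positivity
  set c0 : ℝ := w b * Real.exp (-b) with hc0
  have hc00 : 0 < c0 := by positivity
  refine ⟨C₁ * (2 ^ θ + K1 / c0), fun t ht ht1 => ?_⟩
  have hsw := hw.sm ht
  have hsf := hf.sm ht
  have hsW : Sm (cum w) t := hsw.cum ht
  have hPW : c0 ≤ P (cum w) t := by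
    have h1 : cum w b * Real.exp (-(b * t)) ≤ P (cum w) t :=
      hsW.of_norm.le_tsum b fun n _ => mul_nonneg (cum_nonneg h0 n) (Real.exp_pos _).le
    refine le_trans ?_ h1
    rw [hc0]
    have h2 : w b ≤ cum w b := le_cum h0 le_rfl
    have h3 : Real.exp (-b) ≤ Real.exp (-(b * t)) := by
      apply Real.exp_le_exp.2
      have : (0:ℝ) ≤ b := Nat.cast_nonneg b
      nlinarith
    have h4 := cum_nonneg h0 b
    gcongr
  have hPW0 : 0 < P (cum w) t := lt_of_lt_of_le hc00 hPW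
  -- the identity
  have hid : P f t * P (cum w) t = P (cum (conv w f)) t := by
    rw [P_cum ht hsw, P_cum ht (hsw.conv hsf), P_conv hsw hsf]
    ring
  -- the bound of the terms
  set Y : ℝ := (2 * t ^ (-(1 + ε))) ^ θ with hY
  have hY0 : 0 ≤ Y := by positivity
  have hterm : ∀ N : ℕ, cum (conv w f) N * Real.exp (-(N * t)) ≤
      C₁ * (Y * (cum w N * Real.exp (-(N * t))) + CW * (Ct / ((N : ℝ) + 1) ^ 2)) := by
    intro N
    have hcN := cum_nonneg h0 N
    have hE := (Real.exp_pos (-(N * t))).le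
    refine (mul_le_mul_of_nonneg_right (hS1 N) hE).trans ?_
    rw [mul_assoc C₁, mul_assoc C₁]
    refine mul_le_mul_of_nonneg_left ?_ (by linarith)
    have hT0 : 0 ≤ CW * (Ct / ((N : ℝ) + 1) ^ 2) := by positivity
    by_cases hN : (N : ℝ) ≤ t ^ (-(1 + ε))
    · have h1 : 1 ≤ t ^ (-(1 + ε)) := Real.one_le_rpow_of_pos_of_le_one_of_nonpos ht ht1 (by linarith)
      have h2 : ((N : ℝ) + 1) ^ θ ≤ Y := Real.rpow_le_rpow (by positivity) (by linarith) hθ
      have h3 : 0 ≤ cum w N * Real.exp (-(N * t)) := mul_nonneg hcN hE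
      calc ((N : ℝ) + 1) ^ θ * cum w N * Real.exp (-(N * t)) =
          ((N : ℝ) + 1) ^ θ * (cum w N * Real.exp (-(N * t))) := by ring
        _ ≤ Y * (cum w N * Real.exp (-(N * t))) := mul_le_mul_of_nonneg_right h2 h3
        _ ≤ _ := by linarith
    · push Not at hN
      have hN0 : (0:ℝ) < N := lt_trans (by positivity) hN
      have h1 : (N : ℝ) ^ e ≤ N * t := by
        have a1 : (N : ℝ) ^ (-(1 / (1 + ε))) ≤ t := by
          have b1 : (t ^ (-(1 + ε))) ^ (1 / (1 + ε)) ≤ (N : ℝ) ^ (1 / (1 + ε)) :=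
            Real.rpow_le_rpow (by positivity) hN.le (by positivity)
          rw [← Real.rpow_mul ht.le, show -(1 + ε) * (1 / (1 + ε)) = -1 by field_simp,
            Real.rpow_neg_one] at b1
          rw [Real.rpow_neg hN0.le]
          rw [inv_le_comm₀ (by positivity) ht]
          exact b1
        have a2 : (N : ℝ) ^ e = N * (N : ℝ) ^ (-(1 / (1 + ε))) := by
          rw [show e = 1 + -(1 / (1 + ε)) by rw [he]; field_simp; ring, Real.rpow_add hN0, Real.rpow_one]
        rw [a2]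
        exact mul_le_mul_of_nonneg_left a1 hN0.le
      have h2 : ((N : ℝ) + 1) ^ θ ≤ (N : ℝ) + 1 := by
        have := Real.rpow_le_rpow_of_exponent_le (show (1:ℝ) ≤ (N : ℝ) + 1 by linarith) hθ1
        rwa [Real.rpow_one] at this
      have h3 : cum w N ≤ CW * Real.exp ((N : ℝ) ^ (e / 2)) := (le_abs_self _).trans (hCW N)
      have h4 : Real.exp (-(N * t)) ≤ Real.exp (-((N : ℝ) ^ e)) := Real.exp_le_exp.2 (by linarith)
      have h5 : ((N : ℝ) + 1) ^ θ * cum w N * Real.exp (-(N * t)) ≤ CW * (Ct / ((N : ℝ) + 1) ^ 2) := by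
        calc ((N : ℝ) + 1) ^ θ * cum w N * Real.exp (-(N * t)) ≤
            ((N : ℝ) + 1) * (CW * Real.exp ((N : ℝ) ^ (e / 2))) * Real.exp (-((N : ℝ) ^ e)) := by gcongr
          _ = CW * (((N : ℝ) + 1) * Real.exp ((N : ℝ) ^ (e / 2)) * Real.exp (-((N : ℝ) ^ e))) := by ring
          _ ≤ _ := mul_le_mul_of_nonneg_left (htail N) hCW0
      have h6 : 0 ≤ Y * (cum w N * Real.exp (-(N * t))) := mul_nonneg hY0 (mul_nonneg hcN hE)
      linarith
  have hsR : Summable fun N : ℕ => C₁ * (Y * (cum w N * Real.exp (-(N * t))) + CW * (Ct / ((N : ℝ) + 1) ^ 2)) :=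
    ((hsW.of_norm.mul_left Y).add hsum2).mul_left C₁
  have hmain : P (cum (conv w f)) t ≤ C₁ * (Y * P (cum w) t + K1) := by
    have h1 := ((hsw.conv hsf).cum ht).of_norm.tsum_le_tsum hterm hsR
    have h2 : ∑' N : ℕ, C₁ * (Y * (cum w N * Real.exp (-(N * t))) + CW * (Ct / ((N : ℝ) + 1) ^ 2)) =
        C₁ * (Y * P (cum w) t + K1) := by
      rw [tsum_mul_left, (hsW.of_norm.mul_left Y).tsum_add hsum2, tsum_mul_left]
      rfl
    rw [h2] at h1
    exact h1
  rw [← hid] at hmain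
  have hdiv : P f t ≤ C₁ * (Y + K1 / c0) := by
    have h1 : P f t * P (cum w) t ≤ C₁ * (Y + K1 / c0) * P (cum w) t := by
      refine hmain.trans ?_
      have h2 : K1 ≤ K1 / c0 * P (cum w) t := by
        rw [div_mul_eq_mul_div, le_div_iff₀ hc00]
        exact mul_le_mul_of_nonneg_left hPW hK10
      have h3 : C₁ * (Y * P (cum w) t + K1) ≤ C₁ * (Y * P (cum w) t + K1 / c0 * P (cum w) t) :=
        mul_le_mul_of_nonneg_left (by linarith) (by linarith)
      refine h3.trans (le_of_eq ?_)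
      ring
    exact le_of_mul_le_mul_right h1 hPW0
  refine hdiv.trans ?_
  have h1 : 1 ≤ t ^ (-κ) := Real.one_le_rpow_of_pos_of_le_one_of_nonpos ht ht1 (by linarith)
  have h2 : Y ≤ 2 ^ θ * t ^ (-κ) := by
    rw [hY, Real.mul_rpow (by norm_num) (by positivity), ← Real.rpow_mul ht.le]
    refine mul_le_mul_of_nonneg_left ?_ (by positivity)
    exact Real.rpow_le_rpow_of_exponent_ge ht ht1 (by nlinarith)
  have h3 : K1 / c0 ≤ K1 / c0 * t ^ (-κ) := le_mul_of_one_le_right (by positivity) h1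
  calc C₁ * (Y + K1 / c0) ≤ C₁ * (2 ^ θ * t ^ (-κ) + K1 / c0 * t ^ (-κ)) :=
        mul_le_mul_of_nonneg_left (by linarith) (by linarith)
    _ = _ := by ring

end

end Pool.Agent.L5helper6.AD
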