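import Pool.Agent.L5helper6.AD.Fwd
import Pool.Agent.Helper923.PNT

set_option autoImplicit false

/-! Sums `a p + b q` of multiples of two primes. -/

open Filter Topology Set Finset

namespace Pool.Agent.L5helper6.AD

noncomputable section

/-- the von Mangoldt function -/
def vL (n : ℕ) : ℝ := ArithmeticFunction.vonMangoldt n

/-- the von Mangoldt function on the multiples of `a` -/
def lamA (a n : ℕ) : ℝ := if a ∣ n then vL (n / a) else 0

/-- the weighted number of solutions of `a m + b l ≤ N` -/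
def RR (a b N : ℕ) : ℝ :=
  ∑ m ∈ range (N + 1), ∑ l ∈ range (N + 1), if a * m + b * l ≤ N then vL m * vL l else 0

lemma vL_zero : vL 0 = 0 := by simp [vL]

lemma vL_nonneg (n : ℕ) : 0 ≤ vL n := ArithmeticFunction.vonMangoldt_nonneg

lemma ab_vL : Ab vL := by
  refine ⟨vL_zero, fun σ hσ => (vM_sum hσ).congr fun n => ?_⟩
  rw [abs_of_nonneg (vL_nonneg n)]
  rfl

lemma sum_lamA {a : ℕ} (ha : 1 ≤ a) (F : ℕ → ℝ) (N : ℕ) : ∑ i ∈ range (N + 1), lamA a i * F i =
    ∑ m ∈ range (N + 1), if a * m ≤ N then vL m * F (a * m) else 0 := by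
  have h1 : ∑ i ∈ range (N + 1), lamA a i * F i =
      ∑ i ∈ (range (N + 1)).filter (fun i => a ∣ i), vL (i / a) * F i := by
    rw [sum_filter]
    refine sum_congr rfl fun i _ => ?_
    unfold lamA
    split_ifs <;> simp
  rw [h1, ← sum_filter]
  refine sum_nbij' (fun i => i / a) (fun m => a * m) ?_ ?_ ?_ ?_ ?_
  · intro i hi
    rw [mem_filter, Finset.mem_range] at hi ⊢
    obtain ⟨h2, h3⟩ := hi
    rw [Nat.mul_div_cancel' h3]
    have := Nat.div_le_self i a
    omega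
  · intro m hm
    rw [mem_filter, Finset.mem_range] at hm ⊢
    exact ⟨by omega, dvd_mul_right _ _⟩
  · intro i hi
    rw [mem_filter] at hi
    exact Nat.mul_div_cancel' hi.2
  · intro m _
    exact Nat.mul_div_cancel_left m (by omega)
  · intro i hi
    rw [mem_filter] at hi
    rw [Nat.mul_div_cancel' hi.2]

lemma RR_eq {a b : ℕ} (ha : 1 ≤ a) (hb : 1 ≤ b) (N : ℕ) : RR a b N = cum (conv (lamA a) (lamA b)) N := by
  rw [cum_conv]
  unfold conv
  rw [Finset.Nat.sum_antidiagonal_eq_sum_range_succ (fun i k => lamA a i * cum (lamA b) k), sum_lamA ha]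
  unfold RR
  refine sum_congr rfl fun m hm => ?_
  split_ifs with h
  · have h2 := sum_lamA hb (fun _ => 1) (N - a * m)
    simp only [mul_one] at h2
    unfold cum
    rw [h2, mul_sum, ← sum_subset (Finset.range_subset_range.2 (show N - a * m + 1 ≤ N + 1 by omega))]
    · refine sum_congr rfl fun l _ => ?_
      by_cases h3 : b * l ≤ N - a * m
      · rw [if_pos h3, if_pos (by omega)]
      · rw [if_neg h3, if_neg (by omega), mul_zero]
    · intro l _ hl
      rw [Finset.mem_range] at hl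
      rw [if_neg]
      intro h3
      have : l ≤ b * l := Nat.le_mul_of_pos_left l hb
      omega
  · refine sum_eq_zero fun l _ => ?_
    rw [if_neg]
    intro h3
    exact h (by omega)

lemma lamA_inj {a : ℕ} (ha : 1 ≤ a) : Function.Injective fun m : ℕ => a * m := fun m n h =>
  Nat.eq_of_mul_eq_mul_left ha h

lemma lamA_mul {a : ℕ} (ha : 1 ≤ a) (m : ℕ) : lamA a (a * m) = vL m := by
  unfold lamA
  rw [if_pos (dvd_mul_right _ _), Nat.mul_div_cancel_left m (by omega)]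

lemma sm_lamA {a : ℕ} (ha : 1 ≤ a) {t : ℝ} (ht : 0 < t) : Sm (lamA a) t := by
  unfold Sm
  rw [← (lamA_inj ha).summable_iff]
  · have ha' : (0:ℝ) < a := by exact_mod_cast ha
    refine (ab_vL.sm (show 0 < a * t by positivity)).congr fun m => ?_
    simp only [Function.comp]
    rw [lamA_mul ha]
    congr 3
    push_cast
    ring
  · intro n hn
    unfold lamA
    rw [if_neg]
    · simp
    · rintro ⟨m, rfl⟩
      exact hn ⟨m, rfl⟩

lemma P_lamA {a : ℕ} (ha : 1 ≤ a) (t : ℝ) : P (lamA a) t = P vL (a * t) := by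
  unfold P
  rw [← (lamA_inj ha).tsum_eq]
  · refine tsum_congr fun m => ?_
    rw [lamA_mul ha]
    congr 2
    push_cast
    ring
  · intro n hn
    rw [Function.mem_support] at hn
    by_contra hr
    apply hn
    unfold lamA
    rw [if_neg]
    · simp
    · rintro ⟨m, rfl⟩
      exact hr ⟨m, rfl⟩

/-- the generating function -/
lemma P_RR {a b : ℕ} (ha : 1 ≤ a) (hb : 1 ≤ b) {t : ℝ} (ht : 0 < t) :
    P (RR a b) t = (1 - Real.exp (-t))⁻¹ * (P vL (a * t) * P vL (b * t)) := by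
  have : RR a b = cum (conv (lamA a) (lamA b)) := by
    funext N
    exact RR_eq ha hb N
  rw [this, P_cum ht ((sm_lamA ha ht).conv (sm_lamA hb ht)), P_conv (sm_lamA ha ht) (sm_lamA hb ht),
    P_lamA ha, P_lamA hb]

lemma sm_RR {a b : ℕ} (ha : 1 ≤ a) (hb : 1 ≤ b) {t : ℝ} (ht : 0 < t) : Sm (RR a b) t := by
  have : RR a b = cum (conv (lamA a) (lamA b)) := by
    funext N
    exact RR_eq ha hb N
  rw [this]
  exact ((sm_lamA ha ht).conv (sm_lamA hb ht)).cum ht

/-! ### elementary estimates -/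

lemma one_sub_exp {t : ℝ} (ht : 0 < t) : t / (1 + t) ≤ 1 - Real.exp (-t) ∧ 1 - Real.exp (-t) ≤ t := by
  constructor
  · have h1 : 1 + t ≤ Real.exp t := by linarith [Real.add_one_le_exp t]
    have h2 : Real.exp (-t) ≤ 1 / (1 + t) := by
      rw [Real.exp_neg, ← one_div]
      exact one_div_le_one_div_of_le (by linarith) h1
    have h3 : t / (1 + t) = 1 - 1 / (1 + t) := by
      field_simp
      ring
    linarith
  · have := Real.add_one_le_exp (-t)
    linarith

lemma inv_bounds {t : ℝ} (ht : 0 < t) : 1 / t ≤ (1 - Real.exp (-t))⁻¹ ∧ (1 - Real.exp (-t))⁻¹ ≤ 1 / t + 1 := by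
  obtain ⟨h1, h2⟩ := one_sub_exp ht
  have h0 : 0 < t / (1 + t) := by positivity
  have h3 : 0 < 1 - Real.exp (-t) := by linarith
  constructor
  · rw [← one_div]
    exact one_div_le_one_div_of_le h3 h2
  · rw [← one_div]
    have := one_div_le_one_div_of_le h0 h1
    refine this.trans (le_of_eq ?_)
    field_simp

/-- sums of powers -/
lemma pow_sum {s : ℝ} (hs : 0 < s) : ∃ C : ℝ, 0 < C ∧ ∀ t : ℝ, 0 < t → t ≤ 1 →
    Summable (fun N : ℕ => ((N : ℝ) + 1) ^ s * Real.exp (-(N * t))) ∧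
    ∑' N : ℕ, ((N : ℝ) + 1) ^ s * Real.exp (-(N * t)) ≤ C * t ^ (-(s + 1)) := by
  refine ⟨Real.exp 1 * (s ^ s * 2 ^ s) * 4, by positivity, fun t ht ht1 => ?_⟩
  have hterm : ∀ N : ℕ, ((N : ℝ) + 1) ^ s * Real.exp (-(N * t)) ≤
      Real.exp 1 * (s ^ s * 2 ^ s * t ^ (-s)) * Real.exp (-(N * (t / 2))) := by
    intro N
    have hN : (0:ℝ) < (N : ℝ) + 1 := by positivity
    have h1 := exp_bound (σ := s) (x := ((N : ℝ) + 1) * (t / 2)) hs (by positivity)
    have h2 : Real.exp (-(N * t)) = Real.exp t * Real.exp (-(((N : ℝ) + 1) * (t / 2))) *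
        Real.exp (-(((N : ℝ) + 1) * (t / 2))) := by
      rw [← Real.exp_add, ← Real.exp_add]
      congr 1
      ring
    have h3 : Real.exp (-(((N : ℝ) + 1) * (t / 2))) ≤ Real.exp (-(N * (t / 2))) := Real.exp_le_exp.2 (by nlinarith)
    have h4 : Real.exp t ≤ Real.exp 1 := Real.exp_le_exp.2 ht1
    rw [h2]
    rw [Real.mul_rpow hN.le (by positivity), Real.div_rpow ht.le (by norm_num)] at h1
    have h5 : ((N : ℝ) + 1) ^ s * Real.exp (-(((N : ℝ) + 1) * (t / 2))) ≤ s ^ s * 2 ^ s * t ^ (-s) := by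
      calc ((N : ℝ) + 1) ^ s * Real.exp (-(((N : ℝ) + 1) * (t / 2))) ≤
          ((N : ℝ) + 1) ^ s * (s ^ s * (((N : ℝ) + 1) ^ (-s) * (t ^ (-s) / 2 ^ (-s)))) :=
            mul_le_mul_of_nonneg_left h1 (by positivity)
        _ = _ := by
            rw [Real.rpow_neg hN.le, Real.rpow_neg (show (0:ℝ) ≤ 2 by norm_num)]
            have : ((N : ℝ) + 1) ^ s ≠ 0 := by positivity
            field_simp
    calc ((N : ℝ) + 1) ^ s * (Real.exp t * Real.exp (-(((N : ℝ) + 1) * (t / 2))) *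
        Real.exp (-(((N : ℝ) + 1) * (t / 2)))) = Real.exp t *
        (((N : ℝ) + 1) ^ s * Real.exp (-(((N : ℝ) + 1) * (t / 2)))) * Real.exp (-(((N : ℝ) + 1) * (t / 2))) := by ring
      _ ≤ Real.exp 1 * (s ^ s * 2 ^ s * t ^ (-s)) * Real.exp (-(N * (t / 2))) := by gcongr
  have hgeo : HasSum (fun N : ℕ => Real.exp (-(N * (t / 2)))) (1 - Real.exp (-(t / 2)))⁻¹ := by
    simp only [exp_pow]
    exact hasSum_geometric_of_lt_one (Real.exp_pos _).le (exp_lt (by linarith))
  have hS : Summable (fun N : ℕ => ((N : ℝ) + 1) ^ s * Real.exp (-(N * t))) :=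
    Summable.of_nonneg_of_le (fun N => by positivity) hterm (hgeo.summable.mul_left _)
  refine ⟨hS, (hS.tsum_le_tsum hterm (hgeo.summable.mul_left _)).trans ?_⟩
  rw [tsum_mul_left, hgeo.tsum_eq]
  have h6 := (inv_bounds (show 0 < t / 2 by linarith)).2
  have h7 : (1 - Real.exp (-(t / 2)))⁻¹ ≤ 4 * t⁻¹ := by
    refine h6.trans ?_
    rw [← div_eq_mul_inv, show 1 / (t / 2) = 2 / t by field_simp, le_div_iff₀ ht]
    rw [add_mul, div_mul_cancel₀ _ ht.ne']
    linarith
  have h8 : t ^ (-(s + 1)) = t ^ (-s) * t⁻¹ := by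
    rw [show -(s + 1) = -s + -1 by ring, Real.rpow_add ht, Real.rpow_neg_one]
  rw [h8]
  calc Real.exp 1 * (s ^ s * 2 ^ s * t ^ (-s)) * (1 - Real.exp (-(t / 2)))⁻¹ ≤
      Real.exp 1 * (s ^ s * 2 ^ s * t ^ (-s)) * (4 * t⁻¹) := by gcongr
    _ = _ := by ring

/-! ### the prime number theorem -/

lemma cum_one (N : ℕ) : cum (fun _ => 1) N = (N : ℝ) + 1 := by
  unfold cum
  simp

lemma P_vL {t : ℝ} (ht : 0 < t) : P vL t = P fL t + ((1 - Real.exp (-t))⁻¹ - 1) := by
  have h1 := (ab_fL.sm ht).of_norm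
  have h2 := (sm_one ht).of_norm
  have h3 : ∑' n : ℕ, (if n = 0 then (1:ℝ) else 0) = 1 := by simp
  have h4 : Summable fun n : ℕ => if n = 0 then (1:ℝ) else 0 := summable_of_finite_support
    ((Set.finite_singleton 0).subset fun n hn => by
      by_contra h
      apply hn
      simp at h
      simp [h])
  have h5 := P_one ht
  unfold P at h5 ⊢
  have h6 := (h1.add h2).tsum_sub h4
  rw [h3, h1.tsum_add h2] at h6
  rw [← h5, add_sub_assoc', ← h6]
  refine tsum_congr fun n => ?_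
  unfold fL vL
  split_ifs with h
  · rw [h]
    simp
  · ring

lemma fL_small {ε : ℝ} (hε : 0 < ε) : ∃ C : ℝ, ∀ N : ℕ, |cum fL N| ≤ C + ε * ((N : ℝ) + 1) := by
  have h := Pool.Agent.Helper923.PNT.psi_div_tendsto
  have h1 := (Metric.tendsto_nhds.1 h ε hε)
  have h2 := tendsto_natCast_atTop_atTop.eventually h1
  obtain ⟨N0, hN0⟩ := eventually_atTop.1 (h2.and (eventually_gt_atTop 0))
  refine ⟨∑ n ∈ range N0, |cum fL n|, fun N => ?_⟩
  have hpos : 0 ≤ ∑ n ∈ range N0, |cum fL n| := sum_nonneg fun _ _ => abs_nonneg _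
  rcases lt_or_ge N N0 with hN | hN
  · have : |cum fL N| ≤ ∑ n ∈ range N0, |cum fL n| :=
      single_le_sum (f := fun n => |cum fL n|) (fun _ _ => abs_nonneg _) (Finset.mem_range.2 hN)
    have h3 : 0 ≤ ε * ((N : ℝ) + 1) := by positivity
    linarith
  · obtain ⟨h3, h4⟩ := hN0 N hN
    have hN' : (0:ℝ) < N := by exact_mod_cast h4
    have h5 : cum fL N = Chebyshev.psi N - N := by
      rw [cum_eq (by simp [fL]), ← Pool.Agent.W190.SF_psi]
      unfold Pool.Agent.W190.SF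
      rw [Nat.floor_natCast]
      have : ∀ n ∈ Finset.Icc 1 N, fL n = ArithmeticFunction.vonMangoldt n - 1 := by
        intro n hn
        rw [Finset.mem_Icc] at hn
        unfold fL
        rw [if_neg (by omega)]
      rw [Finset.sum_congr rfl this, Finset.sum_sub_distrib]
      simp
    rw [h5]
    rw [Real.dist_eq] at h3
    have h6 : |Chebyshev.psi N - N| ≤ ε * N := by
      have : Chebyshev.psi N - N = (Chebyshev.psi N / N - 1) * N := by field_simp
      rw [this, abs_mul, abs_of_pos hN']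
      exact mul_le_mul_of_nonneg_right h3.le hN'.le
    nlinarith

lemma P_fL_small {ε : ℝ} (hε : 0 < ε) : ∃ C : ℝ, ∀ t : ℝ, 0 < t → |P fL t| ≤ C + ε * (1 / t + 1) := by
  obtain ⟨C, hC⟩ := fL_small hε
  refine ⟨C, fun t ht => ?_⟩
  have hs := ab_fL.sm ht
  obtain ⟨g1, g2⟩ := one_sub_exp ht
  have g0 : 0 < 1 - Real.exp (-t) := lt_of_lt_of_le (by positivity) g1
  have h1 : P fL t = (1 - Real.exp (-t)) * P (cum fL) t := by
    rw [P_cum ht hs, ← mul_assoc, mul_inv_cancel₀ g0.ne', one_mul]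
  have h2 : |P (cum fL) t| ≤ C * (1 - Real.exp (-t))⁻¹ + ε * ((1 - Real.exp (-t))⁻¹ * (1 - Real.exp (-t))⁻¹) := by
    have hc := hs.cum ht
    have hsum1 := (sm_one ht).of_norm
    have hsum2 := ((sm_one ht).cum ht).of_norm
    have h3 : |P (cum fL) t| ≤ ∑' N : ℕ, ‖cum fL N * Real.exp (-(N * t))‖ := by
      rw [← Real.norm_eq_abs]
      exact norm_tsum_le_tsum_norm hc
    refine h3.trans ?_
    have h4 : ∀ N : ℕ, ‖cum fL N * Real.exp (-(N * t))‖ ≤ C * (1 * Real.exp (-(N * t))) +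
        ε * (cum (fun _ => 1) N * Real.exp (-(N * t))) := by
      intro N
      rw [norm_mul, Real.norm_of_nonneg (Real.exp_pos _).le, Real.norm_eq_abs, cum_one]
      have := mul_le_mul_of_nonneg_right (hC N) (Real.exp_pos (-(N * t))).le
      linarith
    refine (hc.tsum_le_tsum h4 ((hsum1.mul_left C).add (hsum2.mul_left ε))).trans (le_of_eq ?_)
    rw [(hsum1.mul_left C).tsum_add (hsum2.mul_left ε)]
    have e1 : ∑' N : ℕ, C * (1 * Real.exp (-(N * t))) = C * (1 - Real.exp (-t))⁻¹ :=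
      (hsum1.tsum_mul_left C).trans (congrArg (C * ·) (P_one ht))
    have e2 : ∑' N : ℕ, cum (fun _ => 1) N * Real.exp (-(N * t)) = (1 - Real.exp (-t))⁻¹ * (1 - Real.exp (-t))⁻¹ := by
      have := P_cum ht (sm_one ht)
      rw [P_one ht] at this
      exact this
    rw [e1, hsum2.tsum_mul_left ε, e2]
  rw [h1, abs_mul, abs_of_pos g0]
  calc (1 - Real.exp (-t)) * |P (cum fL) t| ≤ (1 - Real.exp (-t)) *
      (C * (1 - Real.exp (-t))⁻¹ + ε * ((1 - Real.exp (-t))⁻¹ * (1 - Real.exp (-t))⁻¹)) :=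
        mul_le_mul_of_nonneg_left h2 g0.le
    _ = C + ε * (1 - Real.exp (-t))⁻¹ := by
        field_simp
    _ ≤ _ := by
        have := (inv_bounds ht).2
        nlinarith

/-- `t Σ Λ(n) e ^ (-n t)` -/
def uL (t : ℝ) : ℝ := t * P vL t

lemma uL_tendsto : Tendsto uL (𝓝[>] 0) (𝓝 1) := by
  rw [Metric.tendsto_nhds]
  intro ε hε
  obtain ⟨C, hC⟩ := P_fL_small (show 0 < ε / 4 by positivity)
  have hδ : 0 < min 1 (ε / (4 * (|C| + ε + 1))) := lt_min one_pos (by positivity)
  have hmem : Ioo (0:ℝ) (min 1 (ε / (4 * (|C| + ε + 1)))) ∈ 𝓝[>] (0:ℝ) := Ioo_mem_nhdsGT hδ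
  filter_upwards [hmem] with t ht
  obtain ⟨ht0, ht1⟩ := ht
  have ht2 : t < 1 := lt_of_lt_of_le ht1 (min_le_left _ _)
  have ht3 : t < ε / (4 * (|C| + ε + 1)) := lt_of_lt_of_le ht1 (min_le_right _ _)
  rw [lt_div_iff₀ (by positivity)] at ht3
  obtain ⟨g1, g2⟩ := inv_bounds ht0
  rw [Real.dist_eq]
  unfold uL
  rw [P_vL ht0]
  have h1 := hC t ht0
  have h2 : t * |P fL t| ≤ t * |C| + ε / 4 * (1 + t) := by
    have := mul_le_mul_of_nonneg_left h1 ht0.le
    have e : t * (C + ε / 4 * (1 / t + 1)) = t * C + ε / 4 * (1 + t) := by field_simp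
    rw [e] at this
    have : t * C ≤ t * |C| := mul_le_mul_of_nonneg_left (le_abs_self C) ht0.le
    linarith
  have h3 : |t * ((1 - Real.exp (-t))⁻¹ - 1) - 1| ≤ t := by
    have a1 := mul_le_mul_of_nonneg_left g1 ht0.le
    have a2 := mul_le_mul_of_nonneg_left g2 ht0.le
    rw [mul_one_div_cancel ht0.ne'] at a1
    rw [mul_add, mul_one_div_cancel ht0.ne', mul_one] at a2
    rw [abs_le]
    constructor <;> linarith
  have h4 : t * (P fL t + ((1 - Real.exp (-t))⁻¹ - 1)) - 1 =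
      t * P fL t + (t * ((1 - Real.exp (-t))⁻¹ - 1) - 1) := by ring
  rw [h4]
  refine lt_of_le_of_lt (abs_add_le _ _) ?_
  rw [abs_mul, abs_of_pos ht0]
  have h5 : 0 ≤ |C| := abs_nonneg _
  nlinarith

end

end Pool.Agent.L5helper6.AD
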