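import Pool.Agent.L5helper6.AD.Bin

set_option autoImplicit false

/-! Sums `a p + b q`: the two directions. -/

open Filter Topology Set Finset

namespace Pool.Agent.L5helper6.AD

noncomputable section

lemma iter {v : ℝ → ℝ} {c η D s0 : ℝ} (hc : 0 < c) (hc1 : c ≤ 1) (hη : 0 < η) (hD : 0 ≤ D)
    (hv : Tendsto v (𝓝[>] 0) (𝓝 0)) (h : ∀ s : ℝ, 0 < s → s ≤ s0 → |v s + v (c * s)| ≤ D * s ^ η) :
    ∃ D' : ℝ, 0 ≤ D' ∧ ∀ s : ℝ, 0 < s → s ≤ s0 → |v s| ≤ D' * s ^ η := by
  rcases hc1.lt_or_eq with hlt | heq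
  · have hq : c ^ η < 1 := Real.rpow_lt_one hc.le hlt hη
    have hq0 : 0 < c ^ η := by positivity
    refine ⟨D / (1 - c ^ η), div_nonneg hD (by linarith), fun s hs hs0 => ?_⟩
    have key : ∀ n : ℕ, |v s| ≤ |v (c ^ n * s)| + D * s ^ η * ∑ k ∈ range n, (c ^ η) ^ k := by
      intro n
      induction n with
      | zero => simp
      | succ n ih =>
        have h1 : 0 < c ^ n * s := by positivity
        have h2 : c ^ n * s ≤ s0 := by
          have : c ^ n ≤ 1 := pow_le_one₀ hc.le hc1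
          nlinarith
        have h3 := h _ h1 h2
        have h4 : |v (c ^ n * s)| ≤ |v (c ^ (n + 1) * s)| + D * (c ^ n * s) ^ η := by
          have e : c * (c ^ n * s) = c ^ (n + 1) * s := by ring
          rw [e] at h3
          have := abs_sub_abs_le_abs_sub (v (c ^ n * s)) (-v (c ^ (n + 1) * s))
          rw [sub_neg_eq_add, abs_neg] at this
          linarith
        have h5 : (c ^ n * s) ^ η = (c ^ η) ^ n * s ^ η := by
          rw [Real.mul_rpow (by positivity) hs.le, ← Real.rpow_natCast, ← Real.rpow_mul hc.le, mul_comm (n : ℝ) η,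
            Real.rpow_mul hc.le, Real.rpow_natCast]
        rw [h5] at h4
        rw [sum_range_succ]
        calc |v s| ≤ |v (c ^ n * s)| + D * s ^ η * ∑ k ∈ range n, (c ^ η) ^ k := ih
          _ ≤ |v (c ^ (n + 1) * s)| + D * ((c ^ η) ^ n * s ^ η) + D * s ^ η * ∑ k ∈ range n, (c ^ η) ^ k := by linarith
          _ = _ := by ring
    have hlim : Tendsto (fun n : ℕ => |v (c ^ n * s)|) atTop (𝓝 0) := by
      have h1 : Tendsto (fun n : ℕ => c ^ n * s) atTop (𝓝[>] 0) := by
        rw [tendsto_nhdsWithin_iff]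
        constructor
        · have := (tendsto_pow_atTop_nhds_zero_of_lt_one hc.le hlt).mul_const s
          rwa [zero_mul] at this
        · exact Eventually.of_forall fun n => by
            show 0 < c ^ n * s
            positivity
      have := (hv.comp h1).abs
      rwa [abs_zero] at this
    have hb : ∀ n : ℕ, |v s| ≤ |v (c ^ n * s)| + D / (1 - c ^ η) * s ^ η := by
      intro n
      refine (key n).trans ?_
      have h1 : ∑ k ∈ range n, (c ^ η) ^ k ≤ (1 - c ^ η)⁻¹ := by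
        rw [← tsum_geometric_of_lt_one hq0.le hq]
        exact (summable_geometric_of_lt_one hq0.le hq).sum_le_tsum _ (fun _ _ => by positivity)
      have h2 : 0 ≤ D * s ^ η := by positivity
      have := mul_le_mul_of_nonneg_left h1 h2
      rw [div_eq_mul_inv]
      nlinarith
    have := ge_of_tendsto' (hlim.add_const (D / (1 - c ^ η) * s ^ η)) hb
    rwa [zero_add] at this
  · refine ⟨D, hD, fun s hs hs0 => ?_⟩
    have h1 := h s hs hs0
    rw [heq, one_mul, ← two_mul, abs_mul, abs_two] at h1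
    have : 0 ≤ |v s| := abs_nonneg _
    linarith

lemma cum_cum_one (N : ℕ) : cum (cum fun _ => 1) N = ((N : ℝ) + 1) * ((N : ℝ) + 2) / 2 := by
  unfold cum
  induction N with
  | zero => simp
  | succ n ih =>
    rw [sum_range_succ, ih]
    simp
    ring

/-- the comparison of the generating functions -/
lemma gen {a b : ℕ} (ha : 1 ≤ a) (hb : 1 ≤ b) {κ C : ℝ} (hκ : 0 < κ)
    (h : ∀ N : ℕ, |RR a b N - (N : ℝ) ^ 2 / (2 * a * b)| ≤ C * ((N : ℝ) + 1) ^ (1 + κ)) :
    ∃ C' : ℝ, 0 ≤ C' ∧ ∀ t : ℝ, 0 < t → t ≤ 1 →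
      |P vL (a * t) * P vL (b * t) - ((1 - Real.exp (-t))⁻¹) ^ 2 / (a * b)| ≤ C' * t ^ (-(1 + κ)) := by
  obtain ⟨Cp, hCp, hp⟩ := pow_sum (show 0 < 1 + κ by linarith)
  have hC : 0 ≤ C := by
    have := (abs_nonneg _).trans (h 0)
    simpa using this
  refine ⟨(C + 3) * Cp, by positivity, fun t ht ht1 => ?_⟩
  obtain ⟨hs, hs2⟩ := hp t ht ht1
  obtain ⟨g1, g2⟩ := one_sub_exp ht
  have g0 : 0 < 1 - Real.exp (-t) := lt_of_lt_of_le (by positivity) g1
  have ha' : (1:ℝ) ≤ a := by exact_mod_cast ha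
  have hb' : (1:ℝ) ≤ b := by exact_mod_cast hb
  have hR := (sm_RR ha hb ht).of_norm
  have h11 := (((sm_one ht).cum ht).cum ht).of_norm
  have hterm : ∀ N : ℕ, ‖RR a b N * Real.exp (-(N * t)) -
      1 / (a * b) * (cum (cum fun _ => 1) N * Real.exp (-(N * t)))‖ ≤
      (C + 3) * (((N : ℝ) + 1) ^ (1 + κ) * Real.exp (-(N * t))) := by
    intro N
    rw [cum_cum_one]
    have e1 : RR a b N * Real.exp (-(N * t)) - 1 / (a * b) * (((N : ℝ) + 1) * ((N : ℝ) + 2) / 2 * Real.exp (-(N * t))) =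
        ((RR a b N - (N : ℝ) ^ 2 / (2 * a * b)) - (3 * (N : ℝ) + 2) / (2 * a * b)) * Real.exp (-(N * t)) := by
      have : (a : ℝ) ≠ 0 := by linarith
      have : (b : ℝ) ≠ 0 := by linarith
      field_simp
      ring
    rw [e1, norm_mul, Real.norm_of_nonneg (Real.exp_pos _).le, Real.norm_eq_abs, ← mul_assoc]
    refine mul_le_mul_of_nonneg_right ?_ (Real.exp_pos _).le
    refine (abs_sub _ _).trans ?_
    have h1 := h N
    have h2 : |(3 * (N : ℝ) + 2) / (2 * a * b)| ≤ 3 * ((N : ℝ) + 1) ^ (1 + κ) := by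
      rw [abs_of_nonneg (by positivity)]
      have h3 : (N : ℝ) + 1 ≤ ((N : ℝ) + 1) ^ (1 + κ) := by
        have := Real.rpow_le_rpow_of_exponent_le (show (1:ℝ) ≤ (N : ℝ) + 1 by linarith [Nat.cast_nonneg (α := ℝ) N])
          (show (1:ℝ) ≤ 1 + κ by linarith)
        rwa [Real.rpow_one] at this
      have h4 : (3 * (N : ℝ) + 2) / (2 * a * b) ≤ 3 * (N : ℝ) + 2 := by
        refine div_le_self (by positivity) ?_
        nlinarith
      linarith
    linarith
  have hsub : |P (RR a b) t - 1 / (a * b) * P (cum (cum fun _ => 1)) t| ≤ (C + 3) * (Cp * t ^ (-(1 + κ + 1))) := by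
    unfold P
    rw [← h11.tsum_mul_left, ← hR.tsum_sub (h11.mul_left _), ← Real.norm_eq_abs]
    have hn : Summable fun N : ℕ => ‖RR a b N * Real.exp (-(N * t)) -
      1 / (a * b) * (cum (cum fun _ => 1) N * Real.exp (-(N * t)))‖ :=
      Summable.of_nonneg_of_le (fun _ => norm_nonneg _) hterm (hs.mul_left _)
    refine (norm_tsum_le_tsum_norm hn).trans ?_
    refine (hn.tsum_le_tsum hterm (hs.mul_left _)).trans ?_
    rw [hs.tsum_mul_left]
    exact mul_le_mul_of_nonneg_left hs2 (by linarith)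
  have e2 : P (cum (cum fun _ => 1)) t = ((1 - Real.exp (-t))⁻¹) ^ 3 := by
    rw [P_cum ht ((sm_one ht).cum ht), P_cum ht (sm_one ht), P_one ht]
    ring
  rw [P_RR ha hb ht, e2] at hsub
  have e3 : P vL (a * t) * P vL (b * t) - ((1 - Real.exp (-t))⁻¹) ^ 2 / (a * b) =
      (1 - Real.exp (-t)) * ((1 - Real.exp (-t))⁻¹ * (P vL (a * t) * P vL (b * t)) -
        1 / (a * b) * ((1 - Real.exp (-t))⁻¹) ^ 3) := by
    have : (a : ℝ) ≠ 0 := by linarith
    have : (b : ℝ) ≠ 0 := by linarith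
    field_simp
  rw [e3, abs_mul, abs_of_pos g0]
  calc (1 - Real.exp (-t)) * |(1 - Real.exp (-t))⁻¹ * (P vL (a * t) * P vL (b * t)) -
        1 / (a * b) * ((1 - Real.exp (-t))⁻¹) ^ 3| ≤ t * ((C + 3) * (Cp * t ^ (-(1 + κ + 1)))) :=
        mul_le_mul g2 hsub (abs_nonneg _) ht.le
    _ = (C + 3) * Cp * (t * t ^ (-(1 + κ + 1))) := by ring
    _ = _ := by
        congr 1
        rw [show -(1 + κ) = 1 + -(1 + κ + 1) by ring, Real.rpow_add ht, Real.rpow_one]

/-- sums of multiples of two primes: the converse part, `a ≤ b` -/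
lemma bin_conv' {a b : ℕ} (ha : 1 ≤ a) (hab : a ≤ b) {κ C : ℝ} (hκ : 0 < κ) (hκ1 : κ < 1)
    (h : ∀ N : ℕ, |RR a b N - (N : ℝ) ^ 2 / (2 * a * b)| ≤ C * ((N : ℝ) + 1) ^ (1 + κ)) :
    ∃ K : ℝ, ∀ t : ℝ, 0 < t → t ≤ 1 → P fL t ≤ K * t ^ (-κ) := by
  have hb : 1 ≤ b := ha.trans hab
  obtain ⟨C1, hC1, h1⟩ := gen ha hb hκ h
  have ha' : (1:ℝ) ≤ a := by exact_mod_cast ha
  have hb' : (1:ℝ) ≤ b := by exact_mod_cast hb
  have hab' : (a:ℝ) ≤ b := by exact_mod_cast hab
  set η : ℝ := 1 - κ with hη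
  have hη0 : 0 < η := by linarith
  -- the product
  set C2 : ℝ := a * b * C1 + 3 with hC2
  have hC20 : 0 ≤ C2 := by positivity
  have h2 : ∀ t : ℝ, 0 < t → t ≤ 1 → |uL (a * t) * uL (b * t) - 1| ≤ C2 * t ^ η := by
    intro t ht ht1
    have k1 := h1 t ht ht1
    obtain ⟨g1, g2⟩ := inv_bounds ht
    set q : ℝ := (1 - Real.exp (-t))⁻¹ with hq
    have hq0 : 0 < q := lt_of_lt_of_le (by positivity) g1
    have e1 : uL (a * t) * uL (b * t) - 1 =
        a * b * t ^ 2 * (P vL (a * t) * P vL (b * t) - q ^ 2 / (a * b)) + ((t * q) ^ 2 - 1) := by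
      have : (a : ℝ) ≠ 0 := by linarith
      have : (b : ℝ) ≠ 0 := by linarith
      unfold uL
      field_simp
      ring
    have hT : t ≤ t ^ η := by
      have := Real.rpow_le_rpow_of_exponent_ge ht ht1 (show η ≤ 1 by linarith)
      rwa [Real.rpow_one] at this
    have k2 : |(t * q) ^ 2 - 1| ≤ 3 * t ^ η := by
      have a1 : 1 ≤ t * q := by
        have := mul_le_mul_of_nonneg_left g1 ht.le
        rwa [mul_one_div_cancel ht.ne'] at this
      have a2 : t * q ≤ 1 + t := by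
        have := mul_le_mul_of_nonneg_left g2 ht.le
        rwa [mul_add, mul_one_div_cancel ht.ne', mul_one] at this
      rw [abs_of_nonneg (by nlinarith)]
      nlinarith
    have k3 : |a * b * t ^ 2 * (P vL (a * t) * P vL (b * t) - q ^ 2 / (a * b))| ≤ a * b * C1 * t ^ η := by
      rw [abs_mul, abs_of_nonneg (by positivity)]
      calc a * b * t ^ 2 * |P vL (a * t) * P vL (b * t) - q ^ 2 / (a * b)| ≤
          a * b * t ^ 2 * (C1 * t ^ (-(1 + κ))) := mul_le_mul_of_nonneg_left k1 (by positivity)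
        _ = a * b * C1 * (t ^ 2 * t ^ (-(1 + κ))) := by ring
        _ = _ := by
            congr 1
            rw [show η = 2 + -(1 + κ) by rw [hη]; ring, Real.rpow_add ht, Real.rpow_two]
    rw [e1]
    refine (abs_add_le _ _).trans ?_
    rw [hC2]
    linarith
  -- small arguments
  have hu := uL_tendsto
  have hev1 : ∀ᶠ s : ℝ in 𝓝[>] 0, 1 / 2 < uL s :=
    hu.eventually (Ioi_mem_nhds (by norm_num))
  obtain ⟨δ, hδ, hδ1⟩ := mem_nhdsGT_iff_exists_Ioo_subset.1 hev1
  have hδ' : (0:ℝ) < δ := hδ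
  obtain ⟨s2, hs2, hs2'⟩ : ∃ s2 : ℝ, 0 < s2 ∧ ∀ t : ℝ, 0 < t → t ≤ s2 → C2 * t ^ η ≤ 1 / 2 := by
    have : Tendsto (fun t : ℝ => C2 * t ^ η) (𝓝[>] 0) (𝓝 0) := by
      have a1 : Tendsto (fun t : ℝ => t ^ η) (𝓝[>] 0) (𝓝 0) := by
        have := (Real.continuousAt_rpow_const (x := 0) (q := η) (Or.inr hη0.le)).tendsto
        rw [Real.zero_rpow hη0.ne'] at this
        exact this.mono_left nhdsWithin_le_nhds
      have := a1.const_mul C2
      rwa [mul_zero] at this
    have hev := this.eventually (Iio_mem_nhds (show (0:ℝ) < 1 / 2 by norm_num))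
    obtain ⟨r, hr, hr1⟩ := mem_nhdsGT_iff_exists_Ioo_subset.1 hev
    have hr' : (0:ℝ) < r := hr
    refine ⟨r / 2, by linarith, fun t ht ht2 => ?_⟩
    have : C2 * t ^ η < 1 / 2 := hr1 ⟨ht, by linarith⟩
    exact this.le
  set t0 : ℝ := min 1 (min (δ / (2 * b)) s2) with ht0
  have ht00 : 0 < t0 := lt_min one_pos (lt_min (by positivity) hs2)
  set v : ℝ → ℝ := fun s => Real.log (uL s) with hv
  have hvt : Tendsto v (𝓝[>] 0) (𝓝 0) := by
    have := (Real.continuousAt_log (show (1:ℝ) ≠ 0 by norm_num)).tendsto.comp hu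
    rwa [Real.log_one] at this
  have h3 : ∀ s : ℝ, 0 < s → s ≤ b * t0 → |v s + v ((a / b : ℝ) * s)| ≤ 2 * C2 * s ^ η := by
    intro s hs hs'
    set t : ℝ := s / b with ht
    have hbp : (0:ℝ) < b := by linarith
    have htp : 0 < t := by positivity
    have htt : t ≤ t0 := by
      rw [ht, div_le_iff₀ hbp]
      linarith
    have ht1 : t ≤ 1 := htt.trans (min_le_left _ _)
    have ht2 : t ≤ δ / (2 * b) := htt.trans ((min_le_right _ _).trans (min_le_left _ _))
    have ht3 : t ≤ s2 := htt.trans ((min_le_right _ _).trans (min_le_right _ _))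
    have hbt : b * t = s := by
      rw [ht]
      field_simp
    have hat : a * t = (a / b : ℝ) * s := by
      rw [ht]
      field_simp
    have hbt2 : b * t < δ := by
      rw [le_div_iff₀ (by positivity)] at ht2
      nlinarith
    have hat2 : a * t < δ := lt_of_le_of_lt (mul_le_mul_of_nonneg_right hab' htp.le) hbt2
    have p1 : 1 / 2 < uL (a * t) := hδ1 ⟨by positivity, hat2⟩
    have p2 : 1 / 2 < uL (b * t) := hδ1 ⟨by positivity, hbt2⟩
    have k1 := h2 t htp ht1
    have k2 := hs2' t htp ht3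
    rw [← hat, ← hbt]
    simp only [hv]
    rw [← Real.log_mul (by linarith) (by linarith), mul_comm (uL (b * t))]
    set y : ℝ := uL (a * t) * uL (b * t) with hy
    have hy1 : |y - 1| ≤ 1 / 2 := k1.trans k2
    have hy2 : |Real.log y| ≤ 2 * |y - 1| := by
      have hyp : 0 < y := by
        rw [abs_le] at hy1
        linarith [hy1.1]
      have b1 := Real.log_le_sub_one_of_pos hyp
      have b2 := Real.one_sub_inv_le_log_of_pos hyp
      rw [abs_le] at hy1 ⊢
      have b3 : -(2 * |y - 1|) ≤ 1 - y⁻¹ := by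
        have hyi : y⁻¹ ≤ 2 := by
          rw [inv_le_comm₀ hyp (by norm_num)]
          linarith [hy1.1]
        have : 1 - y⁻¹ = (y - 1) * y⁻¹ := by field_simp
        rw [this]
        have b4 : -|y - 1| ≤ y - 1 := neg_abs_le _
        have b5 : 0 < y⁻¹ := by positivity
        have b6 : 0 ≤ |y - 1| := abs_nonneg _
        nlinarith
      constructor
      · linarith
      · have := le_abs_self (y - 1)
        have := abs_nonneg (y - 1)
        linarith
    have hts : t ^ η ≤ (b * t) ^ η := Real.rpow_le_rpow htp.le (by nlinarith) hη0.le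
    calc |Real.log y| ≤ 2 * |y - 1| := hy2
      _ ≤ 2 * (C2 * t ^ η) := by linarith
      _ ≤ 2 * (C2 * (b * t) ^ η) := by
          have := mul_le_mul_of_nonneg_left hts hC20
          linarith
      _ = _ := by ring
  obtain ⟨D, hD0, hD⟩ := iter (v := v) (c := (a / b : ℝ)) (η := η) (D := 2 * C2) (s0 := b * t0) (by positivity)
    (div_le_one_of_le₀ hab' (by linarith)) hη0 (by positivity) hvt h3
  -- conclusion for small arguments
  obtain ⟨s3, hs3, hs3'⟩ : ∃ s3 : ℝ, 0 < s3 ∧ ∀ t : ℝ, 0 < t → t ≤ s3 → D * t ^ η ≤ 1 := by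
    have : Tendsto (fun t : ℝ => D * t ^ η) (𝓝[>] 0) (𝓝 0) := by
      have a1 : Tendsto (fun t : ℝ => t ^ η) (𝓝[>] 0) (𝓝 0) := by
        have := (Real.continuousAt_rpow_const (x := 0) (q := η) (Or.inr hη0.le)).tendsto
        rw [Real.zero_rpow hη0.ne'] at this
        exact this.mono_left nhdsWithin_le_nhds
      have := a1.const_mul D
      rwa [mul_zero] at this
    have hev := this.eventually (Iio_mem_nhds (show (0:ℝ) < 1 by norm_num))
    obtain ⟨r, hr, hr1⟩ := mem_nhdsGT_iff_exists_Ioo_subset.1 hev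
    have hr' : (0:ℝ) < r := hr
    refine ⟨r / 2, by linarith, fun t ht ht2 => ?_⟩
    have : D * t ^ η < 1 := hr1 ⟨ht, by linarith⟩
    exact this.le
  set s4 : ℝ := min (min 1 (δ / 2)) (min (b * t0) s3) with hs4
  have hs40 : 0 < s4 := lt_min (lt_min one_pos (by linarith)) (lt_min (by positivity) hs3)
  obtain ⟨CB, hCB0, hCB⟩ := ab_fL.bound (show (1:ℝ) < 2 by norm_num)
  refine ⟨max (2 * D + 1) (CB * s4 ^ (-2 : ℝ)), fun s hs hs1 => ?_⟩
  have hone : 1 ≤ s ^ (-κ) := Real.one_le_rpow_of_pos_of_le_one_of_nonpos hs hs1 (by linarith)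
  rcases le_or_gt s s4 with hle | hgt
  · have q1 : s ≤ δ / 2 := hle.trans ((min_le_left _ _).trans (min_le_right _ _))
    have q2 : s ≤ b * t0 := hle.trans ((min_le_right _ _).trans (min_le_left _ _))
    have q3 : s ≤ s3 := hle.trans ((min_le_right _ _).trans (min_le_right _ _))
    have k1 := hD s hs q2
    have k2 := hs3' s hs q3
    have k3 : 1 / 2 < uL s := hδ1 ⟨hs, by linarith⟩
    have k4 : |uL s - 1| ≤ 2 * (D * s ^ η) := by
      have e : uL s = Real.exp (v s) := by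
        simp only [hv]
        rw [Real.exp_log (by linarith)]
      rw [e]
      have := Real.abs_exp_sub_one_le (x := v s) (k1.trans k2)
      linarith
    have k5 : uL s ≤ 1 + 2 * (D * s ^ η) := by
      have := le_abs_self (uL s - 1)
      linarith
    have k6 : P vL s ≤ 1 / s + 2 * D * s ^ (-κ) := by
      have : P vL s = uL s / s := by
        unfold uL
        field_simp
      rw [this, div_le_iff₀ hs, add_mul, one_div, inv_mul_cancel₀ hs.ne']
      refine k5.trans (le_of_eq ?_)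
      rw [show η = -κ + 1 by rw [hη]; ring, Real.rpow_add hs, Real.rpow_one]
      ring
    have k7 := (inv_bounds hs).1
    have k8 := P_vL hs
    calc P fL s ≤ 2 * D * s ^ (-κ) + 1 := by linarith
      _ ≤ (2 * D + 1) * s ^ (-κ) := by nlinarith
      _ ≤ _ := mul_le_mul_of_nonneg_right (le_max_left _ _) (by positivity)
  · have k1 := (le_abs_self _).trans (hCB s hs)
    have k2 : s ^ (-2 : ℝ) ≤ s4 ^ (-2 : ℝ) := Real.rpow_le_rpow_of_nonpos hs40 hgt.le (by norm_num)
    calc P fL s ≤ CB * s ^ (-2 : ℝ) := k1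
      _ ≤ CB * s4 ^ (-2 : ℝ) := mul_le_mul_of_nonneg_left k2 hCB0
      _ ≤ CB * s4 ^ (-2 : ℝ) * s ^ (-κ) := le_mul_of_one_le_right (by positivity) hone
      _ ≤ _ := mul_le_mul_of_nonneg_right (le_max_right _ _) (by positivity)

end

end Pool.Agent.L5helper6.AD
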