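import Pool.Agent.L5helper6.AD.Bin2

set_option autoImplicit false

/-! Sums `a p + b q`: the direct part, and the equivalence. -/

open Filter Topology Set Finset

namespace Pool.Agent.L5helper6.AD

noncomputable section

lemma RR_symm (a b N : ℕ) : RR a b N = RR b a N := by
  unfold RR
  rw [sum_comm]
  refine sum_congr rfl fun l _ => sum_congr rfl fun m _ => ?_
  rw [add_comm, mul_comm (vL m)]

/-- the converse part -/
theorem bin_conv {a b : ℕ} (ha : 1 ≤ a) (hb : 1 ≤ b) {κ C : ℝ} (hκ : 0 < κ) (hκ1 : κ < 1)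
    (h : ∀ N : ℕ, |RR a b N - (N : ℝ) ^ 2 / (2 * a * b)| ≤ C * ((N : ℝ) + 1) ^ (1 + κ)) : ZF κ := by
  rcases le_total a b with hab | hab
  · obtain ⟨K, hK⟩ := bin_conv' ha hab hκ hκ1 h
    exact zf_fL hκ hκ1 one_ne_zero (K := K) fun t h1 h2 => by
      rw [one_mul]
      exact hK t h1 h2
  · obtain ⟨K, hK⟩ := bin_conv' hb hab hκ hκ1 (C := C) (fun N => by
      have := h N
      rw [RR_symm] at this
      rw [show (2 * b * a : ℝ) = 2 * a * b by ring]
      exact this)
    exact zf_fL hκ hκ1 one_ne_zero (K := K) fun t h1 h2 => by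
      rw [one_mul]
      exact hK t h1 h2

/-- the summatory function of the multiples -/
lemma cum_lamA {a : ℕ} (ha : 1 ≤ a) (M : ℕ) : cum (lamA a) M = cum vL (M / a) := by
  have h := sum_lamA ha (fun _ => 1) M
  simp only [mul_one] at h
  unfold cum
  rw [h, ← sum_filter]
  refine sum_congr ?_ fun _ _ => rfl
  ext m
  rw [mem_filter, Finset.mem_range, Finset.mem_range]
  constructor
  · rintro ⟨-, h2⟩
    have h3 : m * a ≤ M := by
      rw [mul_comm]
      exact h2
    have := (Nat.le_div_iff_mul_le (show 0 < a by omega)).2 h3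
    omega
  · intro h2
    have h3 : m * a ≤ M := (Nat.le_div_iff_mul_le (show 0 < a by omega)).1 (by omega)
    have : m ≤ m * a := Nat.le_mul_of_pos_right m (by omega)
    exact ⟨by omega, by rw [mul_comm]; exact h3⟩

lemma cum_vL (k : ℕ) : cum vL k = cum fL k + k := by
  rw [cum_eq vL_zero, cum_eq (by simp [fL])]
  have : ∀ n ∈ Finset.Icc 1 k, vL n = fL n + 1 := by
    intro n hn
    rw [Finset.mem_Icc] at hn
    unfold fL vL
    rw [if_neg (by omega)]
    ring
  rw [Finset.sum_congr rfl this, Finset.sum_add_distrib]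
  simp

lemma cum_lamA_bound {a : ℕ} (ha : 1 ≤ a) {κ C : ℝ} (hκ : 0 ≤ κ)
    (hC : ∀ N : ℕ, |cum fL N| ≤ C * ((N : ℝ) + 1) ^ κ) (M : ℕ) :
    |cum (lamA a) M - (M : ℝ) / a| ≤ (C + 1) * ((M : ℝ) + 1) ^ κ := by
  have hC0 : 0 ≤ C := by
    have := (abs_nonneg _).trans (hC 0)
    simpa using this
  have ha' : (0:ℝ) < a := by exact_mod_cast ha
  rw [cum_lamA ha, cum_vL]
  have h1 := hC (M / a)
  have h2 : ((M / a : ℕ) : ℝ) ≤ M := by exact_mod_cast Nat.div_le_self M a
  have h3 : ((M / a : ℕ) : ℝ) ≤ (M : ℝ) / a := Nat.cast_div_le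
  have h4 : (M : ℝ) / a ≤ ((M / a : ℕ) : ℝ) + 1 := by
    rw [div_le_iff₀ ha']
    have h5 : M < (M / a + 1) * a := by
      have := Nat.lt_div_mul_add (a := M) (b := a) (by omega)
      rw [add_mul, one_mul]
      exact this
    have : (M : ℝ) < ((M / a : ℕ) + 1) * a := by exact_mod_cast h5
    linarith
  have h6 : 1 ≤ ((M : ℝ) + 1) ^ κ := Real.one_le_rpow (by linarith [Nat.cast_nonneg (α := ℝ) M]) hκ
  have h7 : (((M / a : ℕ) : ℝ) + 1) ^ κ ≤ ((M : ℝ) + 1) ^ κ := Real.rpow_le_rpow (by positivity) (by linarith) hκ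
  have h8 : cum fL (M / a) + ((M / a : ℕ) : ℝ) - (M : ℝ) / a = cum fL (M / a) + (((M / a : ℕ) : ℝ) - (M : ℝ) / a) := by ring
  rw [h8]
  refine (abs_add_le _ _).trans ?_
  have h9 : |((M / a : ℕ) : ℝ) - (M : ℝ) / a| ≤ 1 := by
    rw [abs_le]
    constructor <;> linarith
  have h10 := mul_le_mul_of_nonneg_left h7 hC0
  nlinarith

/-- the convolution with the identity -/
lemma conv_id (x : ℕ → ℝ) (N : ℕ) : conv x (fun M => (M : ℝ)) N = ∑ i ∈ range N, cum x i := by
  have h1 : (fun M : ℕ => (M : ℝ)) = cum (fun n => if n = 0 then 0 else 1) := by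
    funext M
    have h2 : ∀ n ∈ Finset.Icc 1 M, (if n = 0 then (0:ℝ) else 1) = 1 := by
      intro n hn
      rw [Finset.mem_Icc] at hn
      rw [if_neg (by omega)]
    rw [cum_eq (by simp), Finset.sum_congr rfl h2]
    simp
  rw [h1, ← cum_conv, cum_conv']
  unfold conv
  rw [Finset.Nat.sum_antidiagonal_eq_sum_range_succ (fun i k => cum x i * (if k = 0 then (0:ℝ) else 1)), sum_range_succ]
  simp only [Nat.sub_self, if_true, mul_zero, add_zero]
  refine sum_congr rfl fun i hi => ?_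
  rw [Finset.mem_range] at hi
  rw [if_neg (by omega), mul_one]

lemma sum_id (N : ℕ) : ∑ i ∈ range N, (i : ℝ) = (N : ℝ) * ((N : ℝ) - 1) / 2 := by
  induction N with
  | zero => simp
  | succ n ih =>
    rw [sum_range_succ, ih]
    push_cast
    ring

/-- the direct part -/
theorem bin_fwd {a b : ℕ} (ha : 1 ≤ a) (hb : 1 ≤ b) {θ κ : ℝ} (h0 : 1 / 2 ≤ θ) (hz : ZF θ) (hκ : θ < κ)
    (hκ1 : κ ≤ 1) : ∃ C : ℝ, ∀ N : ℕ, |RR a b N - (N : ℝ) ^ 2 / (2 * a * b)| ≤ C * ((N : ℝ) + 1) ^ (1 + κ) := by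
  obtain ⟨C, hC⟩ := up_fL h0 hz hκ hκ1
  have hC0 : 0 ≤ C := by
    have := (abs_nonneg _).trans (hC 0)
    simpa using this
  have hκ0 : 0 ≤ κ := by linarith
  have ha' : (1:ℝ) ≤ a := by exact_mod_cast ha
  have hb' : (1:ℝ) ≤ b := by exact_mod_cast hb
  set e : ℕ → ℝ := fun M => cum (lamA b) M - (M : ℝ) / b with he
  refine ⟨(C + 1) * (C + 2) + ((C + 1) + 1), fun N => ?_⟩
  set X : ℝ := (N : ℝ) + 1 with hX
  have hX1 : 1 ≤ X := by
    rw [hX]
    linarith [Nat.cast_nonneg (α := ℝ) N]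
  have hXX : X ≤ X ^ (1 + κ) := by
    have := Real.rpow_le_rpow_of_exponent_le hX1 (show (1:ℝ) ≤ 1 + κ by linarith)
    rwa [Real.rpow_one] at this
  have hXκ : X ^ κ ≤ X := by
    have := Real.rpow_le_rpow_of_exponent_le hX1 hκ1
    rwa [Real.rpow_one] at this
  have hXm : X ^ (1 + κ) = X * X ^ κ := by
    rw [Real.rpow_add (by linarith), Real.rpow_one]
  -- splitting
  have h1 : RR a b N = conv (lamA a) e N + 1 / b * conv (lamA a) (fun M => (M : ℝ)) N := by
    rw [RR_eq ha hb, cum_conv]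
    unfold conv
    rw [mul_sum, ← sum_add_distrib]
    refine sum_congr rfl fun p _ => ?_
    simp only [he]
    ring
  have hlam0 : ∀ n, 0 ≤ lamA a n := by
    intro n
    unfold lamA
    split_ifs
    · exact vL_nonneg _
    · exact le_rfl
  -- the error term
  have h2 : |conv (lamA a) e N| ≤ (C + 1) * X ^ κ * cum (lamA a) N := by
    refine abs_conv_le hlam0 fun j hj => ?_
    have := cum_lamA_bound hb hκ0 hC j
    refine this.trans ?_
    have hj' : (j : ℝ) ≤ N := by exact_mod_cast hj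
    have : ((j : ℝ) + 1) ^ κ ≤ X ^ κ := Real.rpow_le_rpow (by positivity) (by linarith) hκ0
    exact mul_le_mul_of_nonneg_left this (by linarith)
  have h3 : cum (lamA a) N ≤ (C + 2) * X := by
    have k1 := cum_lamA_bound ha hκ0 hC N
    rw [abs_le] at k1
    have k2 : (N : ℝ) / a ≤ X := (div_le_self (Nat.cast_nonneg N) ha').trans (by rw [hX]; linarith)
    have k3 : (C + 1) * ((N : ℝ) + 1) ^ κ ≤ (C + 1) * X := mul_le_mul_of_nonneg_left hXκ (by linarith)
    linarith [k1.2]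
  have h4 : |conv (lamA a) e N| ≤ (C + 1) * (C + 2) * X ^ (1 + κ) := by
    refine h2.trans ?_
    rw [hXm]
    calc (C + 1) * X ^ κ * cum (lamA a) N ≤ (C + 1) * X ^ κ * ((C + 2) * X) :=
          mul_le_mul_of_nonneg_left h3 (by positivity)
      _ = _ := by ring
  -- the main term
  have h5 : |conv (lamA a) (fun M => (M : ℝ)) N - (N : ℝ) ^ 2 / (2 * a)| ≤ ((C + 1) + 1) * X ^ (1 + κ) := by
    rw [conv_id]
    have e1 : ∑ i ∈ range N, cum (lamA a) i - (N : ℝ) ^ 2 / (2 * a) =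
        ∑ i ∈ range N, (cum (lamA a) i - (i : ℝ) / a) - (N : ℝ) / (2 * a) := by
      rw [sum_sub_distrib, ← sum_div, sum_id]
      have : (a : ℝ) ≠ 0 := by linarith
      field_simp
      ring
    rw [e1]
    refine (abs_sub _ _).trans ?_
    have k1 : |∑ i ∈ range N, (cum (lamA a) i - (i : ℝ) / a)| ≤ (C + 1) * X ^ (1 + κ) := by
      refine (Finset.abs_sum_le_sum_abs _ _).trans ?_
      have k2 : ∀ i ∈ range N, |cum (lamA a) i - (i : ℝ) / a| ≤ (C + 1) * X ^ κ := by
        intro i hi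
        rw [Finset.mem_range] at hi
        refine (cum_lamA_bound ha hκ0 hC i).trans (mul_le_mul_of_nonneg_left ?_ (by linarith))
        have : (i : ℝ) ≤ N := by exact_mod_cast hi.le
        exact Real.rpow_le_rpow (by positivity) (by linarith) hκ0
      refine (Finset.sum_le_sum k2).trans ?_
      rw [sum_const, card_range, nsmul_eq_mul, hXm]
      have : (N : ℝ) ≤ X := by rw [hX]; linarith
      calc (N : ℝ) * ((C + 1) * X ^ κ) ≤ X * ((C + 1) * X ^ κ) := mul_le_mul_of_nonneg_right this (by positivity)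
        _ = _ := by ring
    have k3 : |(N : ℝ) / (2 * a)| ≤ X ^ (1 + κ) := by
      rw [abs_of_nonneg (by positivity)]
      have : (N : ℝ) / (2 * a) ≤ N := div_le_self (Nat.cast_nonneg N) (by linarith)
      linarith [show (N : ℝ) ≤ X by rw [hX]; linarith]
    linarith
  have h6 : RR a b N - (N : ℝ) ^ 2 / (2 * a * b) = conv (lamA a) e N +
      1 / b * (conv (lamA a) (fun M => (M : ℝ)) N - (N : ℝ) ^ 2 / (2 * a)) := by
    rw [h1]
    have : (a : ℝ) ≠ 0 := by linarith
    have : (b : ℝ) ≠ 0 := by linarith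
    field_simp
    ring
  rw [h6]
  refine (abs_add_le _ _).trans ?_
  have h7 : |1 / (b:ℝ) * (conv (lamA a) (fun M => (M : ℝ)) N - (N : ℝ) ^ 2 / (2 * a))| ≤ ((C + 1) + 1) * X ^ (1 + κ) := by
    rw [abs_mul, abs_of_nonneg (by positivity)]
    refine le_trans ?_ h5
    have : 1 / (b:ℝ) ≤ 1 := by
      rw [div_le_one (by linarith)]
      exact hb'
    exact mul_le_of_le_one_left (abs_nonneg _) this
  linarith

end

end Pool.Agent.L5helper6.AD
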