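import Pool.Agent.L5helper6.AD.Bin3

set_option autoImplicit false

/-! Assembly. -/

open Filter Topology Set Finset

namespace Pool.Agent.L5helper6.AD

noncomputable section

lemma sub_of_bdd {f : ℕ → ℝ} (h : ∀ n, |f n| ≤ 1) : Sub f := fun ε hε => ⟨1, fun n => (h n).trans (by
  rw [one_mul]
  exact Real.one_le_exp (by positivity))⟩

lemma sub_fM : Sub fM := sub_of_bdd fun n => by
  unfold fM
  exact_mod_cast ArithmeticFunction.abs_moebius_le_one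

lemma sub_fO : Sub fO := sub_of_bdd fun n => by
  unfold fO
  split_ifs
  · simp
  · rw [abs_pow, abs_neg, abs_one, one_pow]

lemma sub_fL : Sub fL := by
  intro ε hε
  refine ⟨1 / ε + 1, fun n => ?_⟩
  rcases Nat.eq_zero_or_pos n with rfl | hn
  · unfold fL
    simp
    positivity
  have h1 : |fL n| ≤ Real.log n + 1 := by
    unfold fL
    rw [if_neg hn.ne']
    have a1 := ArithmeticFunction.vonMangoldt_nonneg (n := n)
    have a2 := ArithmeticFunction.vonMangoldt_le_log (n := n)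
    rw [abs_le]
    constructor <;> linarith
  have h2 : Real.log n ≤ (n : ℝ) ^ ε / ε := Real.log_le_rpow_div (Nat.cast_nonneg n) hε
  have h3 : (n : ℝ) ^ ε ≤ Real.exp ((n : ℝ) ^ ε) := by linarith [Real.add_one_le_exp ((n : ℝ) ^ ε)]
  have h4 : 1 ≤ Real.exp ((n : ℝ) ^ ε) := Real.one_le_exp (by positivity)
  calc |fL n| ≤ Real.log n + 1 := h1
    _ ≤ (n : ℝ) ^ ε / ε + 1 := by linarith
    _ = 1 / ε * (n : ℝ) ^ ε + 1 := by ring
    _ ≤ 1 / ε * Real.exp ((n : ℝ) ^ ε) + 1 * Real.exp ((n : ℝ) ^ ε) := by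
        rw [one_mul]
        gcongr
    _ = _ := by ring

lemma Sub.smul {f : ℕ → ℝ} (hf : Sub f) (c : ℝ) : Sub fun n => c * f n := by
  intro ε hε
  obtain ⟨C, hC⟩ := hf ε hε
  refine ⟨|c| * C, fun n => ?_⟩
  rw [abs_mul, mul_assoc]
  exact mul_le_mul_of_nonneg_left (hC n) (abs_nonneg c)

/-- the summatory function of a weight of subexponential growth -/
lemma sub_cum {w : ℕ → ℝ} (h0 : ∀ n, 0 ≤ w n)
    (h : ∀ ε : ℝ, 0 < ε → ∃ C : ℝ, ∀ n : ℕ, w n ≤ C * Real.exp ((n : ℝ) ^ ε)) : Sub (cum w) := by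
  intro ε hε
  obtain ⟨C, hC⟩ := h (ε / 2) (by linarith)
  obtain ⟨Ct, hCt, ht⟩ := tail_bound hε
  have hC0 : 0 ≤ C := by
    refine Sub.C_nonneg (a := w) (ε := ε / 2) fun n => ?_
    rw [abs_of_nonneg (h0 n)]
    exact hC n
  refine ⟨C * Ct, fun N => ?_⟩
  rw [abs_of_nonneg (cum_nonneg h0 N)]
  have h1 : cum w N ≤ ((N : ℝ) + 1) * (C * Real.exp ((N : ℝ) ^ (ε / 2))) := by
    unfold cum
    have : ∀ n ∈ range (N + 1), w n ≤ C * Real.exp ((N : ℝ) ^ (ε / 2)) := by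
      intro n hn
      rw [Finset.mem_range] at hn
      refine (hC n).trans (mul_le_mul_of_nonneg_left (Real.exp_le_exp.2 ?_) hC0)
      have : (n : ℝ) ≤ N := by exact_mod_cast (show n ≤ N by omega)
      exact Real.rpow_le_rpow (Nat.cast_nonneg n) this (by linarith)
    refine (Finset.sum_le_sum this).trans (le_of_eq ?_)
    rw [sum_const, card_range, nsmul_eq_mul]
    push_cast
    ring
  have h2 := ht N
  have h3 : Ct / ((N : ℝ) + 1) ^ 2 ≤ Ct := div_le_self hCt.le (by nlinarith [Nat.cast_nonneg (α := ℝ) N])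
  have h4 : ((N : ℝ) + 1) * Real.exp ((N : ℝ) ^ (ε / 2)) ≤ Ct * Real.exp ((N : ℝ) ^ ε) := by
    have := mul_le_mul_of_nonneg_right (h2.trans h3) (Real.exp_pos ((N : ℝ) ^ ε)).le
    rw [mul_assoc (((N : ℝ) + 1) * Real.exp ((N : ℝ) ^ (ε / 2))), ← Real.exp_add, neg_add_cancel, Real.exp_zero,
      mul_one] at this
    exact this
  calc cum w N ≤ ((N : ℝ) + 1) * (C * Real.exp ((N : ℝ) ^ (ε / 2))) := h1
    _ = C * (((N : ℝ) + 1) * Real.exp ((N : ℝ) ^ (ε / 2))) := by ring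
    _ ≤ C * (Ct * Real.exp ((N : ℝ) ^ ε)) := mul_le_mul_of_nonneg_left h4 hC0
    _ = _ := by ring

lemma conv_smul (w f : ℕ → ℝ) (c : ℝ) (N : ℕ) : cum (conv w fun n => c * f n) N = c * cum (conv w f) N := by
  unfold cum conv
  rw [mul_sum]
  refine sum_congr rfl fun n _ => ?_
  rw [mul_sum]
  exact sum_congr rfl fun p _ => by ring

/-- what is needed of an arithmetic function -/
structure Good (f : ℕ → ℝ) : Prop where
  sub : Sub f
  zf : ∀ κ K c : ℝ, 1 / 2 ≤ κ → κ < 1 → c ≠ 0 → (∀ t : ℝ, 0 < t → t ≤ 1 → c * P f t ≤ K * t ^ (-κ)) → ZF κ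
  up : ∀ θ κ : ℝ, 1 / 2 ≤ θ → ZF θ → θ < κ → κ ≤ 1 → ∃ C : ℝ, ∀ N : ℕ, |cum f N| ≤ C * ((N : ℝ) + 1) ^ κ

lemma good_fL : Good fL := ⟨sub_fL, fun _ _ _ h1 h2 h3 h4 => zf_fL (by linarith) h2 h3 h4,
  fun _ _ h1 h2 h3 h4 => up_fL h1 h2 h3 h4⟩

lemma good_fM : Good fM := ⟨sub_fM, fun _ _ _ h1 h2 h3 h4 => zf_fM (by linarith) h2 h3 h4,
  fun _ _ h1 h2 h3 _ => up_fM h1 h2 h3⟩

lemma good_fO : Good fO := ⟨sub_fO, fun _ _ _ h1 h2 h3 h4 => zf_fO h1 h2 h3 h4,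
  fun _ _ h1 h2 h3 _ => up_fO h1 h2 h3⟩

lemma zf_of_lt {θ : ℝ} (hθ1 : θ < 1) (h : ∀ κ : ℝ, θ < κ → κ < 1 → ZF κ) : ZF θ := by
  intro s hs
  rcases le_or_gt 1 s.re with h1 | h1
  · exact riemannZeta_ne_zero_of_one_le_re h1
  · obtain ⟨κ, h2, h3⟩ := exists_between hs
    exact h κ h2 (by linarith) s h3

/-- one-sided bounds give zero-free half-planes -/
theorem Good.conv {f w : ℕ → ℝ} (hf : Good f) (h0 : ∀ n, 0 ≤ w n) (hne : ∃ n, w n ≠ 0) (hW : Sub (cum w))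
    {θ c : ℝ} (hθ : 1 / 2 ≤ θ) (hθ1 : θ < 1) (hc : c ≠ 0)
    (h : ∀ ε : ℝ, 0 < ε → ∃ C : ℝ, ∀ N : ℕ, c * cum (conv w f) N ≤ C * ((N : ℝ) + 1) ^ (θ + ε) * cum w N) :
    ZF θ := by
  refine zf_of_lt hθ1 fun κ h1 h2 => ?_
  obtain ⟨C, hC⟩ := h ((κ - θ) / 2) (by linarith)
  obtain ⟨K, hK⟩ := abel h0 hne hW (hf.sub.smul c) (θ := θ + (κ - θ) / 2) (κ := κ) (C := C) (by linarith)
    (by linarith) (by linarith) (fun N => by
      rw [conv_smul]
      exact hC N)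
  refine hf.zf κ K c (by linarith) h2 hc fun t ht ht1 => ?_
  have := hK t ht ht1
  rwa [P_smul] at this

/-- zero-free half-planes give two-sided bounds -/
theorem Good.fwd {f w : ℕ → ℝ} (hf : Good f) (h0 : ∀ n, 0 ≤ w n) {θ : ℝ} (hθ : 1 / 2 ≤ θ) (hθ1 : θ < 1)
    (hz : ZF θ) {ε : ℝ} (hε : 0 < ε) :
    ∃ C : ℝ, ∀ N : ℕ, |cum (AD.conv w f) N| ≤ C * ((N : ℝ) + 1) ^ (θ + ε) * cum w N := by
  obtain ⟨C, hC⟩ := hf.up θ (min (θ + ε) 1) hθ hz (lt_min (by linarith) hθ1) (min_le_right _ _)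
  have hC0 : 0 ≤ C := by
    have := (abs_nonneg _).trans (hC 0)
    simpa using this
  refine ⟨C, fun N => AD.fwd h0 (by linarith) (fun M => (hC M).trans (mul_le_mul_of_nonneg_left ?_ hC0)) N⟩
  exact Real.rpow_le_rpow_of_exponent_le (by linarith [Nat.cast_nonneg (α := ℝ) M]) (min_le_left _ _)

end

end Pool.Agent.L5helper6.AD
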