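import Pool.Agent.L5helper6.AD.Inst
import Pool.Agent.R303.SW.Lio
import Pool.Agent.W190.A17

set_option autoImplicit false

/-! The direct part: zero-free half-planes give power savings in additive averages. -/

open Filter Topology Set Complex

namespace Pool.Agent.L5helper6.AD

noncomputable section

open PowerSeries in
lemma conv_coeff (w f : ℕ → ℝ) (n : ℕ) : conv w f n = coeff n (PowerSeries.mk w * PowerSeries.mk f) := by
  rw [coeff_mul]
  simp only [coeff_mk]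
  rfl

lemma mk_conv (w f : ℕ → ℝ) : PowerSeries.mk (conv w f) = PowerSeries.mk w * PowerSeries.mk f := by
  ext n
  rw [PowerSeries.coeff_mk, conv_coeff]

/-- the summatory function of a convolution -/
lemma cum_conv (w f : ℕ → ℝ) (N : ℕ) : cum (conv w f) N = conv w (cum f) N := by
  rw [← conv_one, ← conv_one, conv_coeff, conv_coeff, mk_conv, mk_conv]
  congr 1
  ring

lemma cum_conv' (w f : ℕ → ℝ) (N : ℕ) : cum (conv w f) N = conv (cum w) f N := by
  rw [← conv_one, ← conv_one, conv_coeff, conv_coeff, mk_conv, mk_conv]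
  congr 1
  ring

lemma abs_conv_le {w g : ℕ → ℝ} (h0 : ∀ n, 0 ≤ w n) {N : ℕ} {B : ℝ} (hg : ∀ j ≤ N, |g j| ≤ B) :
    |conv w g N| ≤ B * cum w N := by
  unfold conv
  refine (Finset.abs_sum_le_sum_abs _ _).trans ?_
  have h1 : ∀ p ∈ Finset.HasAntidiagonal.antidiagonal N, |w p.1 * g p.2| ≤ w p.1 * B := by
    intro p hp
    rw [Finset.HasAntidiagonal.mem_antidiagonal] at hp
    rw [abs_mul, abs_of_nonneg (h0 _)]
    exact mul_le_mul_of_nonneg_left (hg _ (by omega)) (h0 _)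
  refine (Finset.sum_le_sum h1).trans (le_of_eq ?_)
  rw [← Finset.sum_mul, mul_comm]
  congr 1
  rw [Finset.Nat.sum_antidiagonal_eq_sum_range_succ (fun i _ => w i)]
  rfl

/-- from the summatory function to the additive average -/
lemma fwd {w f : ℕ → ℝ} (h0 : ∀ n, 0 ≤ w n) {θ C : ℝ} (hθ : 0 ≤ θ) (hC : ∀ N : ℕ, |cum f N| ≤ C * ((N : ℝ) + 1) ^ θ)
    (N : ℕ) : |cum (conv w f) N| ≤ C * ((N : ℝ) + 1) ^ θ * cum w N := by
  rw [cum_conv]
  have hC0 : 0 ≤ C := by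
    have := (abs_nonneg _).trans (hC 0)
    simpa using this
  refine abs_conv_le h0 fun j hj => (hC j).trans ?_
  have : (j : ℝ) ≤ N := by exact_mod_cast hj
  gcongr

lemma cum_eq {f : ℕ → ℝ} (h0 : f 0 = 0) (N : ℕ) : cum f N = ∑ n ∈ Finset.Icc 1 N, f n := by
  unfold cum
  rw [Finset.sum_range_succ', h0, add_zero, Finset.range_eq_Ico, Finset.sum_Ico_add' f 0 N 1]
  refine Finset.sum_congr ?_ fun _ _ => rfl
  ext n
  simp only [Finset.mem_Ico, Finset.mem_Icc]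
  omega

/-- a bound for real arguments gives the bound for the summatory function -/
lemma cum_bound {f : ℕ → ℝ} (h0 : f 0 = 0) {κ C : ℝ} (hκ : 0 ≤ κ)
    (h : ∀ y : ℝ, 1 ≤ y → |∑ n ∈ Finset.Icc 1 ⌊y⌋₊, f n| ≤ C * y ^ κ) : ∃ C' : ℝ, ∀ N : ℕ,
    |cum f N| ≤ C' * ((N : ℝ) + 1) ^ κ := by
  refine ⟨max C 0, fun N => ?_⟩
  rw [cum_eq h0]
  rcases Nat.eq_zero_or_pos N with rfl | hN
  · simp
  have h1 := h N (by exact_mod_cast hN)
  rw [Nat.floor_natCast] at h1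
  refine h1.trans ?_
  have h2 : (N : ℝ) ^ κ ≤ ((N : ℝ) + 1) ^ κ := Real.rpow_le_rpow (by positivity) (by linarith) hκ
  have h3 : C ≤ max C 0 := le_max_left _ _
  have h4 : 0 ≤ max C 0 := le_max_right _ _
  calc C * (N : ℝ) ^ κ ≤ max C 0 * (N : ℝ) ^ κ := mul_le_mul_of_nonneg_right h3 (by positivity)
    _ ≤ _ := mul_le_mul_of_nonneg_left h2 h4

lemma up_fM {θ κ : ℝ} (h0 : 1 / 2 ≤ θ) (hz : ZF θ) (hκ : θ < κ) : ∃ C : ℝ, ∀ N : ℕ,
    |cum fM N| ≤ C * ((N : ℝ) + 1) ^ κ := by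
  obtain ⟨C, hC⟩ := H353.mertens_of_free θ h0 hz κ hκ
  exact cum_bound (by simp [fM]) (by linarith) hC

lemma fO_eq (n : ℕ) : fO n = Pool.Agent.R303.SW.laR n := by
  unfold fO
  split_ifs with h
  · rw [h, Pool.Agent.R303.SW.laR_zero]
  · rw [Pool.Agent.R303.SW.laR_eq h]

lemma up_fO {θ κ : ℝ} (h0 : 1 / 2 ≤ θ) (hz : ZF θ) (hκ : θ < κ) : ∃ C : ℝ, ∀ N : ℕ,
    |cum fO N| ≤ C * ((N : ℝ) + 1) ^ κ := by
  obtain ⟨C, hC⟩ := Pool.Agent.R303.SW.liou_bound h0 hz κ hκ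
  refine cum_bound (by simp [fO]) (by linarith) (C := C) fun y hy => ?_
  have := hC y hy
  unfold Pool.Agent.W190.SF at this
  simp only [fO_eq]
  exact this

lemma up_fL {θ κ : ℝ} (h0 : 1 / 2 ≤ θ) (hz : ZF θ) (hκ : θ < κ) (hκ1 : κ ≤ 1) : ∃ C : ℝ, ∀ N : ℕ,
    |cum fL N| ≤ C * ((N : ℝ) + 1) ^ κ := by
  obtain ⟨C, hC0, hC⟩ := Pool.Agent.W190.psi_of_free θ h0 hz κ hκ hκ1
  refine ⟨C, fun N => ?_⟩
  rw [cum_eq (by simp [fL])]
  rcases Nat.eq_zero_or_pos N with rfl | hN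
  · simp
    exact hC0.le
  have h1 := hC N (by exact_mod_cast hN)
  have h2 : ∑ n ∈ Finset.Icc 1 N, fL n = Chebyshev.psi N - N := by
    rw [← Pool.Agent.W190.SF_psi]
    unfold Pool.Agent.W190.SF
    rw [Nat.floor_natCast]
    have : ∀ n ∈ Finset.Icc 1 N, fL n = ArithmeticFunction.vonMangoldt n - 1 := by
      intro n hn
      rw [Finset.mem_Icc] at hn
      unfold fL
      rw [if_neg (by omega)]
    rw [Finset.sum_congr rfl this, Finset.sum_sub_distrib]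
    simp
  rw [h2]
  refine h1.trans (mul_le_mul_of_nonneg_left ?_ hC0.le)
  exact Real.rpow_le_rpow (by positivity) (by linarith) (by linarith)

end

end Pool.Agent.L5helper6.AD
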