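import Pool.Agent.L5helper6.AD.Lan
import Pool.Agent.Helper791_Cyc.E2
import Pool.Agent.H295R2.Z
import Pool.Agent.H534R2.BH_Lam

set_option autoImplicit false

/-! The von Mangoldt, Moebius and Liouville functions. -/

open Filter Topology Set Complex
open Pool.Agent.H295R2 (Zs Zs_eq Zs_differentiable Zs_ne_zero_of_one_le)

namespace Pool.Agent.L5helper6.AD

noncomputable section

/-- no zeros to the right of `θ` -/
def ZF (θ : ℝ) : Prop := ∀ s : ℂ, θ < s.re → riemannZeta s ≠ 0

/-- the von Mangoldt function minus one -/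
def fL (n : ℕ) : ℝ := if n = 0 then 0 else ArithmeticFunction.vonMangoldt n - 1

/-- the Moebius function -/
def fM (n : ℕ) : ℝ := (ArithmeticFunction.moebius n : ℝ)

/-- the Liouville function, `0` at `0` -/
def fO (n : ℕ) : ℝ := if n = 0 then 0 else (-1 : ℝ) ^ ArithmeticFunction.cardFactors n

lemma one_ab {σ : ℝ} (hσ : 1 < σ) : Summable fun n : ℕ => 1 / (n : ℝ) ^ σ := Real.summable_one_div_nat_rpow.2 hσ

lemma ab_of_le_one {f : ℕ → ℝ} (h0 : f 0 = 0) (h : ∀ n, |f n| ≤ 1) : Ab f :=
  ⟨h0, fun σ hσ => Summable.of_nonneg_of_le (fun n => by positivity)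
    (fun n => div_le_div_of_nonneg_right (h n) (by positivity)) (one_ab hσ)⟩

lemma ab_fM : Ab fM := by
  refine ab_of_le_one (by simp [fM]) fun n => ?_
  unfold fM
  exact_mod_cast ArithmeticFunction.abs_moebius_le_one

lemma ab_fO : Ab fO := by
  refine ab_of_le_one (by simp [fO]) fun n => ?_
  unfold fO
  split_ifs
  · simp
  · rw [abs_pow, abs_neg, abs_one, one_pow]

lemma vM_sum {σ : ℝ} (hσ : 1 < σ) : Summable fun n : ℕ => ArithmeticFunction.vonMangoldt n / (n : ℝ) ^ σ := by
  have h := (ArithmeticFunction.LSeriesSummable_vonMangoldt (s := (σ : ℂ)) (by simpa using hσ)).norm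
  refine h.congr fun n => ?_
  rw [LSeries.norm_term_eq]
  split_ifs with h0
  · rw [h0]
    simp
  · rw [Complex.ofReal_re, Complex.norm_real, Real.norm_of_nonneg ArithmeticFunction.vonMangoldt_nonneg]

lemma ab_fL : Ab fL := by
  refine ⟨by simp [fL], fun σ hσ => ?_⟩
  refine Summable.of_nonneg_of_le (fun n => by positivity) (fun n => ?_) ((vM_sum hσ).add (one_ab hσ))
  rw [← add_div]
  refine div_le_div_of_nonneg_right ?_ (by positivity)
  have h := ArithmeticFunction.vonMangoldt_nonneg (n := n)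
  unfold fL
  split_ifs
  · rw [abs_zero]
    linarith
  · rw [abs_le]
    constructor <;> linarith

/-! ### Dirichlet series -/

lemma L_fM {s : ℂ} (hs : 1 < s.re) : riemannZeta s * L fM s = 1 := by
  have h := LSeries_one_mul_Lseries_moebius hs
  rw [LSeries_one_eq_riemannZeta hs] at h
  exact h

lemma L_fL {s : ℂ} (hs : 1 < s.re) : L fL s = -(deriv riemannZeta s / riemannZeta s) - riemannZeta s := by
  have h1 := ArithmeticFunction.LSeries_vonMangoldt_eq_deriv_riemannZeta_div hs
  have h2 := LSeries_one_eq_riemannZeta hs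
  have h3 : LSeries (fun n => ((ArithmeticFunction.vonMangoldt n : ℝ) : ℂ) - (1 : ℕ → ℂ) n) s =
      LSeries (fun n => ((ArithmeticFunction.vonMangoldt n : ℝ) : ℂ)) s - LSeries 1 s :=
    LSeries_sub (ArithmeticFunction.LSeriesSummable_vonMangoldt hs) (LSeriesSummable_one_iff.2 hs)
  have h4 : L fL s = LSeries (fun n => ((ArithmeticFunction.vonMangoldt n : ℝ) : ℂ) - (1 : ℕ → ℂ) n) s := by
    unfold L
    refine LSeries_congr (fun {n} hn => ?_) s
    unfold fL
    rw [if_neg hn]
    push_cast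
    rfl
  rw [h4, h3, h1, h2]
  ring

/-! ### nonvanishing on the real axis -/

lemma Zs_real {w : ℝ} (hw : 0 < w) : Zs w ≠ 0 := by
  rcases lt_or_ge w 1 with h | h
  · have hne : (w : ℂ) ≠ 1 := by
      intro h'
      have : w = 1 := by exact_mod_cast h'
      linarith
    rw [← Zs_eq hne]
    exact mul_ne_zero (sub_ne_zero.2 hne) (Pool.Agent.Helper791.Cyc.zeta_real_ne w hw h)
  · exact Zs_ne_zero_of_one_le (by simpa using h)

lemma Zs_one : Zs 1 = 1 := by
  unfold Zs
  exact riemannZeta₁_one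

lemma Zs_an (s : ℂ) : AnalyticAt ℂ Zs s := Zs_differentiable.analyticAt s

/-- the continuation for a general function, divided by the Gamma function -/
lemma cont {f : ℕ → ℝ} (hf : Ab f) {κ K : ℝ} (hP : ∀ t : ℝ, 0 < t → t ≤ 1 → P f t ≤ K * t ^ (-κ)) {D : ℂ → ℂ}
    (hD : ∀ w : ℝ, κ < w → AnalyticAt ℂ D w) (hκ : 0 < κ) (hκ1 : κ < 1) (hD1 : ∀ w : ℝ, 1 < w → D w = L f w) :
    ∃ H : ℂ → ℂ, DifferentiableOn ℂ H {s | κ < s.re} ∧ ∀ s : ℂ, 1 < s.re → H s = L f s := by
  obtain ⟨G, hG, hG1⟩ := landau_abel hf hP hD hκ hD1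
  refine ⟨fun s => (Gamma s)⁻¹ * G s, fun s hs => ?_, fun s hs => ?_⟩
  · exact (differentiable_one_div_Gamma s).differentiableWithinAt.mul (hG s hs)
  · simp only
    rw [hG1 s (by linarith) hs, ← mul_assoc, inv_mul_cancel₀ (Gamma_ne_zero_of_re_pos (by linarith)), one_mul]

/-- identity theorem on a half-plane -/
lemma ident {κ : ℝ} (hκ1 : κ < 1) {A B : ℂ → ℂ} (hA : DifferentiableOn ℂ A {s | κ < s.re})
    (hB : DifferentiableOn ℂ B {s | κ < s.re}) (h : ∀ s : ℂ, 1 < s.re → A s = B s) {s : ℂ} (hs : κ < s.re) :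
    A s = B s := by
  have ho : IsOpen {s : ℂ | κ < s.re} := isOpen_lt continuous_const continuous_re
  have hc : IsPreconnected {s : ℂ | κ < s.re} := (convex_halfSpace_re_gt κ).isPreconnected
  have h2 : (2 : ℂ) ∈ {s : ℂ | κ < s.re} := by
    show κ < (2:ℂ).re
    norm_num
    linarith
  have hev : A =ᶠ[𝓝 2] B := by
    have : {s : ℂ | 1 < s.re} ∈ 𝓝 (2:ℂ) := (isOpen_lt continuous_const continuous_re).mem_nhds (by
      show 1 < (2:ℂ).re
      norm_num)
    filter_upwards [this] with z hz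
    exact h z hz
  exact (hA.analyticOnNhd ho).eqOn_of_preconnected_of_eventuallyEq (hB.analyticOnNhd ho) hc h2 hev hs

lemma zf_of_Zs {κ : ℝ} (h : ∀ s : ℂ, κ < s.re → Zs s ≠ 0) : ZF κ := by
  intro s hs h0
  by_cases h1 : s = 1
  · rw [h1] at h0
    exact riemannZeta_one_ne_zero h0
  · apply h s hs
    rw [← Zs_eq h1, h0, mul_zero]

lemma Ab.smul {f : ℕ → ℝ} (hf : Ab f) (c : ℝ) : Ab fun n => c * f n := by
  refine ⟨by simp [hf.1], fun σ hσ => ?_⟩
  have := (hf.2 σ hσ).mul_left |c|
  refine this.congr fun n => ?_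
  rw [abs_mul]
  ring

lemma P_smul (f : ℕ → ℝ) (c t : ℝ) : P (fun n => c * f n) t = c * P f t := by
  unfold P
  rw [← tsum_mul_left]
  exact tsum_congr fun n => by ring

lemma L_smul (f : ℕ → ℝ) (c : ℝ) (s : ℂ) : L (fun n => c * f n) s = c * L f s := by
  unfold L
  rw [← LSeries_smul]
  congr 1
  funext n
  simp

/-- the continuation, with a sign -/
lemma cont' {f : ℕ → ℝ} (hf : Ab f) {κ K c : ℝ} (hc : c ≠ 0)
    (hP : ∀ t : ℝ, 0 < t → t ≤ 1 → c * P f t ≤ K * t ^ (-κ)) {D : ℂ → ℂ}
    (hD : ∀ w : ℝ, κ < w → AnalyticAt ℂ D w) (hκ : 0 < κ) (hκ1 : κ < 1) (hD1 : ∀ w : ℝ, 1 < w → D w = L f w) :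
    ∃ H : ℂ → ℂ, DifferentiableOn ℂ H {s | κ < s.re} ∧ ∀ s : ℂ, 1 < s.re → H s = L f s := by
  obtain ⟨H, h1, h2⟩ := cont (hf.smul c) (κ := κ) (K := K) (fun t h1 h2 => by
    rw [P_smul]
    exact hP t h1 h2) (D := fun s => c * D s) (fun w hw => analyticAt_const.mul (hD w hw)) hκ hκ1 (fun w hw => by
    rw [L_smul, hD1 w hw])
  refine ⟨fun s => (c : ℂ)⁻¹ * H s, h1.const_mul _, fun s hs => ?_⟩
  have : (c : ℂ) ≠ 0 := by exact_mod_cast hc
  show (c : ℂ)⁻¹ * H s = L f s
  rw [h2 s hs, L_smul, ← mul_assoc, inv_mul_cancel₀ this, one_mul]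

/-- the Moebius function -/
theorem zf_fM {κ K c : ℝ} (hκ : 0 < κ) (hκ1 : κ < 1) (hc : c ≠ 0)
    (hP : ∀ t : ℝ, 0 < t → t ≤ 1 → c * P fM t ≤ K * t ^ (-κ)) : ZF κ := by
  obtain ⟨H, hH, hH1⟩ := cont' ab_fM hc hP (D := fun s => (s - 1) / Zs s) (fun w hw =>
    (analyticAt_id.sub analyticAt_const).div (Zs_an w) (Zs_real (by linarith))) hκ hκ1 (fun w hw => by
    have h1 := L_fM (s := (w : ℂ)) (by simpa using hw)
    have hne : (w : ℂ) ≠ 1 := by
      intro h'
      have : w = 1 := by exact_mod_cast h'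
      linarith
    have hz : riemannZeta w ≠ 0 := by
      intro h0
      rw [h0, zero_mul] at h1
      exact zero_ne_one h1
    rw [← Zs_eq hne, eq_comm, eq_div_iff (mul_ne_zero (sub_ne_zero.2 hne) hz)]
    linear_combination ((w:ℂ) - 1) * h1)
  refine zf_of_Zs fun s hs h0 => ?_
  have key := ident hκ1 (A := fun s => Zs s * H s) (B := fun s => s - 1)
    (Zs_differentiable.differentiableOn.mul hH) (by fun_prop) (fun z hz => by
      have hne : z ≠ 1 := by
        intro h'
        rw [h'] at hz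
        simp at hz
      rw [hH1 z hz, ← Zs_eq hne]
      linear_combination (z - 1) * L_fM hz) hs
  simp only [h0, zero_mul] at key
  have h1 : s = 1 := by linear_combination -key
  rw [h1, Zs_one] at h0
  exact one_ne_zero h0

/-- the von Mangoldt function -/
theorem zf_fL {κ K c : ℝ} (hκ : 0 < κ) (hκ1 : κ < 1) (hc : c ≠ 0)
    (hP : ∀ t : ℝ, 0 < t → t ≤ 1 → c * P fL t ≤ K * t ^ (-κ)) : ZF κ := by
  -- the value of the Dirichlet series
  have hval : ∀ s : ℂ, 1 < s.re → (s - 1) * Zs s * L fL s = -((s - 1) * deriv Zs s) + Zs s - Zs s ^ 2 := by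
    intro s hs
    have hne : s ≠ 1 := by
      intro h'
      rw [h'] at hs
      simp at hs
    have hz : riemannZeta s ≠ 0 := riemannZeta_ne_zero_of_one_lt_re hs
    have hd : deriv Zs s = riemannZeta s + (s - 1) * deriv riemannZeta s := by
      have h1 : Zs =ᶠ[𝓝 s] fun z => (z - 1) * riemannZeta z := by
        filter_upwards [isOpen_ne.mem_nhds hne] with z hz'
        rw [Zs_eq hz']
      rw [h1.deriv_eq]
      have h2 : HasDerivAt (fun z : ℂ => (z - 1) * riemannZeta z) (1 * riemannZeta s + (s - 1) * deriv riemannZeta s) s :=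
        ((hasDerivAt_id s).sub_const 1).mul (differentiableAt_riemannZeta hne).hasDerivAt
      rw [h2.deriv, one_mul]
    rw [L_fL hs, hd, ← Zs_eq hne]
    field_simp
    ring
  obtain ⟨H, hH, hH1⟩ := cont' ab_fL hc hP (D := fun s => -dslope Zs 1 s - deriv Zs s / Zs s) (fun w hw => by
    have a1 : AnalyticAt ℂ (dslope Zs 1) w :=
      ((Complex.differentiableOn_dslope (s := univ) (by simp)).2 Zs_differentiable.differentiableOn).analyticAt
        (by simp)
    exact a1.neg.sub ((Zs_an w).deriv.div (Zs_an w) (Zs_real (by linarith)))) hκ hκ1 (fun w hw => by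
    have hw' : 1 < (w : ℂ).re := by simpa using hw
    have h1 := hval w hw'
    have hne : (w : ℂ) ≠ 1 := by
      intro h'
      have : w = 1 := by exact_mod_cast h'
      linarith
    have hz : Zs w ≠ 0 := Zs_real (by linarith)
    have hne' : (w : ℂ) - 1 ≠ 0 := sub_ne_zero.2 hne
    rw [dslope_of_ne _ hne, slope_def_field, Zs_one]
    have h2 : L fL w = (-(((w:ℂ) - 1) * deriv Zs w) + Zs w - Zs w ^ 2) / (((w:ℂ) - 1) * Zs w) := by
      rw [eq_div_iff (mul_ne_zero hne' hz), ← h1]
      ring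
    rw [h2]
    field_simp
    ring)
  refine zf_of_Zs fun s hs h0 => ?_
  have hs1 : s ≠ 1 := by
    intro h
    rw [h, Zs_one] at h0
    exact one_ne_zero h0
  have hs1' : s - 1 ≠ 0 := sub_ne_zero.2 hs1
  have ho : IsOpen {s : ℂ | κ < s.re} := isOpen_lt continuous_const continuous_re
  have hHan : AnalyticAt ℂ H s := hH.analyticAt (ho.mem_nhds hs)
  have key : ∀ z : ℂ, κ < z.re → (z - 1) * Zs z * H z = -((z - 1) * deriv Zs z) + Zs z - Zs z ^ 2 := by
    intro z hz
    have hZd : Differentiable ℂ (deriv Zs) := fun z => (Zs_an z).deriv.differentiableAt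
    exact ident hκ1 (A := fun z => (z - 1) * Zs z * H z)
      (B := fun z => -((z - 1) * deriv Zs z) + Zs z - Zs z ^ 2)
      (((by fun_prop : Differentiable ℂ fun z : ℂ => z - 1).mul Zs_differentiable).differentiableOn.mul hH)
      ((((by fun_prop : Differentiable ℂ fun z : ℂ => z - 1).mul hZd).neg.add Zs_differentiable).sub
        (Zs_differentiable.pow 2)).differentiableOn
      (fun z hz => by
        rw [hH1 z hz]
        exact hval z hz) hz
  -- the differential equation
  set A : ℂ → ℂ := fun z => (1 - Zs z - (z - 1) * H z) / (z - 1) with hA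
  have hAan : AnalyticAt ℂ A s :=
    ((analyticAt_const.sub (Zs_an s)).sub ((analyticAt_id.sub analyticAt_const).mul hHan)).div
      (analyticAt_id.sub analyticAt_const) hs1'
  have hev : deriv Zs =ᶠ[𝓝 s] Zs * A := by
    filter_upwards [ho.mem_nhds hs, isOpen_ne.mem_nhds hs1] with z hz1 hz2
    have hz2' : z - 1 ≠ 0 := sub_ne_zero.2 hz2
    have := key z hz1
    simp only [Pi.mul_apply, hA]
    field_simp
    linear_combination this
  have ord1 : analyticOrderAt (deriv Zs) s = analyticOrderAt Zs s + analyticOrderAt A s := by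
    rw [analyticOrderAt_congr hev, analyticOrderAt_mul (Zs_an s) hAan]
  have ord2 : analyticOrderAt (deriv Zs) s + 1 = analyticOrderAt Zs s := by
    have := (Zs_an s).analyticOrderAt_deriv_add_one
    rw [this]
    congr 1
    funext z
    rw [h0, sub_zero]
  have hfin : analyticOrderAt Zs s ≠ ⊤ := by
    intro htop
    rw [analyticOrderAt_eq_top] at htop
    have h1 : Zs = 0 := by
      have := (Zs_differentiable.differentiableOn.analyticOnNhd isOpen_univ).eqOn_of_preconnected_of_eventuallyEq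
        (g := 0) (fun _ _ => analyticAt_const) isPreconnected_univ (mem_univ s) (by
          filter_upwards [htop] with z hz
          rw [hz]
          rfl)
      funext z
      exact this (mem_univ z)
    have := Zs_one
    rw [h1] at this
    simp at this
  rw [ord1] at ord2
  generalize analyticOrderAt Zs s = a at *
  generalize analyticOrderAt A s = b at *
  cases a with
  | top => exact hfin rfl
  | coe a =>
    cases b with
    | top => simp at ord2
    | coe b =>
      norm_cast at ord2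
      omega

/-! ### the Liouville function -/

/-- the squares -/
def sqF : ArithmeticFunction ℂ := ⟨fun n => if n ≠ 0 ∧ IsSquare n then 1 else 0, by simp⟩

lemma sqF_apply (n : ℕ) : sqF n = if n ≠ 0 ∧ IsSquare n then 1 else 0 := rfl

/-- the Moebius function, complex values -/
def muF : ArithmeticFunction ℂ := ⟨fun n => ((ArithmeticFunction.moebius n : ℤ) : ℂ), by simp⟩

lemma sqF_mul (n : ℕ) (hn : n ≠ 0) : (sqF * muF) n = (fO n : ℂ) := by
  classical
  have h1 := Pool.Agent.H534R2.BH.lam_eq n n (Finset.mem_Icc.2 ⟨Nat.pos_of_ne_zero hn, le_rfl⟩)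
  have h2 : (fO n : ℂ) = (-1 : ℂ) ^ (ArithmeticFunction.cardFactors n) := by
    unfold fO
    rw [if_neg hn]
    push_cast
    rfl
  rw [h2, h1, ArithmeticFunction.mul_apply, ← Finset.sum_filter]
  have h5 : ∑ i ∈ n.divisorsAntidiagonal, sqF i.1 * muF i.2 =
      ∑ i ∈ n.divisorsAntidiagonal.filter (fun i => IsSquare i.1), muF i.2 := by
    rw [Finset.sum_filter]
    apply Finset.sum_congr rfl
    intro i hi
    have h6 := Nat.mem_divisorsAntidiagonal.1 hi
    have h7 : i.1 ≠ 0 := by
      intro h0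
      rw [h0, zero_mul] at h6
      exact h6.2 h6.1.symm
    rw [sqF_apply]
    by_cases hs : IsSquare i.1
    · rw [if_pos ⟨h7, hs⟩, if_pos hs, one_mul]
    · rw [if_neg (fun h => hs h.2), if_neg hs, zero_mul]
  rw [h5]
  symm
  refine Finset.sum_bij' (fun m _ => (m ^ 2, n / m ^ 2)) (fun i _ => Nat.sqrt i.1) ?_ ?_ ?_ ?_ ?_
  · intro m hm
    rw [Finset.mem_filter, Finset.mem_Icc] at hm
    rw [Finset.mem_filter, Nat.mem_divisorsAntidiagonal]
    exact ⟨⟨Nat.mul_div_cancel' hm.2, by omega⟩, ⟨m, by ring⟩⟩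
  · intro i hi
    rw [Finset.mem_filter, Nat.mem_divisorsAntidiagonal] at hi
    obtain ⟨⟨g1, g2⟩, ⟨m, hm⟩⟩ := hi
    rw [Finset.mem_filter, Finset.mem_Icc]
    have g3 : Nat.sqrt i.1 = m := by rw [hm]; exact Nat.sqrt_eq m
    have g4 : m ^ 2 ∣ n := ⟨i.2, by rw [← g1, hm]; ring⟩
    rw [g3]
    have g5 : 1 ≤ m := by
      rcases Nat.eq_zero_or_pos m with h | h
      · rw [h] at hm
        rw [hm] at g1
        omega
      · exact h
    refine ⟨⟨g5, ?_⟩, g4⟩
    have g6 := Nat.le_of_dvd (by omega) g4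
    nlinarith
  · intro m hm
    simp only
    rw [sq]
    exact Nat.sqrt_eq m
  · rintro ⟨i1, i2⟩ hi
    rw [Finset.mem_filter, Nat.mem_divisorsAntidiagonal] at hi
    obtain ⟨⟨g1, g2⟩, ⟨m, hm⟩⟩ := hi
    simp only at hm g1
    have g3 : Nat.sqrt i1 = m := by rw [hm]; exact Nat.sqrt_eq m
    have g5 : 1 ≤ m := by
      rcases Nat.eq_zero_or_pos m with h | h
      · rw [h] at hm
        rw [hm] at g1
        omega
      · exact h
    simp only [g3, Prod.mk.injEq]
    refine ⟨by rw [hm]; ring, ?_⟩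
    rw [← g1, hm, ← sq]
    exact Nat.mul_div_cancel_left _ (pow_pos (by omega) 2)
  · intro m hm
    rfl

lemma L_sq {s : ℂ} (hs : 1 < s.re) : LSeries (fun n => sqF n) s = riemannZeta (2 * s) := by
  have h2 : 1 < (2 * s).re := by
    simp
    linarith
  rw [zeta_eq_tsum_one_div_nat_cpow h2]
  unfold LSeries
  have hinj : Function.Injective fun m : ℕ => m ^ 2 := fun a b h => by
    simpa using h
  have hsupp : Function.support (LSeries.term (fun n => sqF n) s) ⊆ Set.range fun m : ℕ => m ^ 2 := by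
    intro n hn
    rw [Function.mem_support] at hn
    by_contra hns
    apply hn
    unfold LSeries.term
    split_ifs with h
    · rfl
    · show sqF n / (n : ℂ) ^ s = 0
      rw [sqF_apply, if_neg, zero_div]
      rintro ⟨-, m, hm⟩
      exact hns ⟨m, by simp [hm, sq]⟩
  rw [← hinj.tsum_eq hsupp]
  refine tsum_congr fun m => ?_
  unfold LSeries.term
  rcases Nat.eq_zero_or_pos m with rfl | hm
  · simp
    rw [Complex.zero_cpow (by
      intro h
      rw [h] at h2
      simp at h2
      linarith)]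
  · have hm2 : m ^ 2 ≠ 0 := by positivity
    rw [if_neg hm2]
    show sqF (m ^ 2) / ((m ^ 2 : ℕ) : ℂ) ^ s = _
    rw [sqF_apply, if_pos ⟨hm2, ⟨m, sq m⟩⟩]
    congr 1
    rw [Complex.cpow_def_of_ne_zero (by exact_mod_cast hm2), Complex.cpow_def_of_ne_zero (by exact_mod_cast hm.ne')]
    congr 1
    rw [← Complex.natCast_log, ← Complex.natCast_log]
    push_cast
    rw [Real.log_pow]
    push_cast
    ring

lemma L_fO {s : ℂ} (hs : 1 < s.re) : riemannZeta s * L fO s = riemannZeta (2 * s) := by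
  have h1 : L fO s = LSeries (fun n => (sqF * muF) n) s := by
    unfold L
    refine LSeries_congr (fun {n} hn => ?_) s
    rw [sqF_mul n hn]
  have hsq : LSeriesSummable (fun n => sqF n) s := by
    refine LSeriesSummable_of_bounded_of_one_lt_re (m := 1) (fun n _ => ?_) hs
    rw [sqF_apply]
    split_ifs <;> simp
  have hmu : LSeriesSummable (fun n => muF n) s := by
    refine LSeriesSummable_of_bounded_of_one_lt_re (m := 1) (fun n _ => ?_) hs
    show ‖((ArithmeticFunction.moebius n : ℤ) : ℂ)‖ ≤ 1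
    rw [Complex.norm_intCast]
    exact_mod_cast ArithmeticFunction.abs_moebius_le_one
  rw [h1, ArithmeticFunction.LSeries_mul' hsq hmu, L_sq hs]
  have h3 := LSeries_one_mul_Lseries_moebius hs
  rw [LSeries_one_eq_riemannZeta hs] at h3
  have h4 : LSeries (fun n => muF n) s = LSeries (fun n => ((ArithmeticFunction.moebius n : ℤ) : ℂ)) s := rfl
  rw [h4]
  linear_combination riemannZeta (2 * s) * h3

/-- the Liouville function -/
theorem zf_fO {κ K c : ℝ} (hκ : 1 / 2 ≤ κ) (hκ1 : κ < 1) (hc : c ≠ 0)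
    (hP : ∀ t : ℝ, 0 < t → t ≤ 1 → c * P fO t ≤ K * t ^ (-κ)) : ZF κ := by
  have hval : ∀ s : ℂ, 1 < s.re → (2 * s - 1) * (Zs s * L fO s) = (s - 1) * Zs (2 * s) := by
    intro s hs
    have hne : s ≠ 1 := by
      intro h'
      rw [h'] at hs
      simp at hs
    have hne2 : 2 * s ≠ 1 := by
      intro h'
      have := congrArg Complex.re h'
      simp at this
      linarith
    rw [← Zs_eq hne, ← Zs_eq hne2]
    linear_combination (2 * s - 1) * (s - 1) * L_fO hs
  obtain ⟨H, hH, hH1⟩ := cont' ab_fO hc hP (D := fun s => (s - 1) * Zs (2 * s) / ((2 * s - 1) * Zs s)) (fun w hw => by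
    have hne2 : 2 * (w:ℂ) - 1 ≠ 0 := by
      intro h'
      have := congrArg Complex.re h'
      simp at this
      linarith
    have hz : Zs w ≠ 0 := Zs_real (by linarith)
    have a1 : AnalyticAt ℂ (fun s => Zs (2 * s)) w :=
      (Zs_differentiable.comp (by fun_prop : Differentiable ℂ fun s : ℂ => 2 * s)).analyticAt _
    have a2 : AnalyticAt ℂ (fun s : ℂ => s - 1) w := analyticAt_id.sub analyticAt_const
    have a3 : AnalyticAt ℂ (fun s : ℂ => 2 * s - 1) w :=
      (by fun_prop : Differentiable ℂ fun s : ℂ => 2 * s - 1).analyticAt _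
    exact (a2.mul a1).div (a3.mul (Zs_an w)) (mul_ne_zero hne2 hz)) (by linarith) hκ1 (fun w hw => by
    have h1 := hval w (by simpa using hw)
    have hne2 : 2 * (w:ℂ) - 1 ≠ 0 := by
      intro h'
      have := congrArg Complex.re h'
      simp at this
      linarith
    have hz : Zs w ≠ 0 := Zs_real (by linarith)
    rw [eq_comm, eq_div_iff (mul_ne_zero hne2 hz)]
    linear_combination h1)
  refine zf_of_Zs fun s hs h0 => ?_
  have key := ident hκ1 (A := fun s => (2 * s - 1) * (Zs s * H s)) (B := fun s => (s - 1) * Zs (2 * s))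
    ((by fun_prop : Differentiable ℂ fun s : ℂ => 2 * s - 1).differentiableOn.mul
      (Zs_differentiable.differentiableOn.mul hH))
    ((by fun_prop : Differentiable ℂ fun s : ℂ => s - 1).mul
      (Zs_differentiable.comp (by fun_prop : Differentiable ℂ fun s : ℂ => 2 * s))).differentiableOn (fun z hz => by
      rw [hH1 z hz]
      exact hval z hz) hs
  simp only [h0, zero_mul, mul_zero] at key
  have h2 : Zs (2 * s) ≠ 0 := Zs_ne_zero_of_one_le (by
    simp
    linarith)
  have h3 : s - 1 = 0 := by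
    rcases mul_eq_zero.1 key.symm with h | h
    · exact h
    · exact absurd h h2
  have h1 : s = 1 := by linear_combination h3
  rw [h1, Zs_one] at h0
  exact one_ne_zero h0

end

end Pool.Agent.L5helper6.AD
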