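import Pool.Agent.L5helper6.AD.Abel
import Pool.Agent.TH988.RB.Lan

set_option autoImplicit false

/-! Landau's theorem for power series at `e ^ (-t)`: a one-sided bound gives the analytic
continuation of the Dirichlet series. -/

open Filter Topology Set MeasureTheory Complex
open Pool.Agent.W263.BSD

namespace Pool.Agent.L5helper6.AD

noncomputable section

/-- the Dirichlet series converges absolutely to the right of `1` -/
def Ab (f : ℕ → ℝ) : Prop := f 0 = 0 ∧ ∀ σ : ℝ, 1 < σ → Summable fun n : ℕ => |f n| / (n : ℝ) ^ σ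

/-- the Dirichlet series -/
def L (f : ℕ → ℝ) (s : ℂ) : ℂ := LSeries (fun n => (f n : ℂ)) s

lemma exp_bound {σ x : ℝ} (hσ : 0 < σ) (hx : 0 < x) : Real.exp (-x) ≤ σ ^ σ * x ^ (-σ) := by
  have h1 : x / σ ≤ Real.exp (x / σ) := by linarith [Real.add_one_le_exp (x / σ)]
  have h2 : (x / σ) ^ σ ≤ Real.exp x := by
    calc (x / σ) ^ σ ≤ Real.exp (x / σ) ^ σ := Real.rpow_le_rpow (by positivity) h1 hσ.le
      _ = Real.exp x := by
          rw [← Real.exp_mul]
          congr 1
          field_simp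
  rw [Real.exp_neg, Real.rpow_neg hx.le, ← div_eq_mul_inv, inv_le_comm₀ (Real.exp_pos _) (by positivity), inv_div,
    ← Real.div_rpow hx.le hσ.le]
  exact h2

lemma Ab.term {f : ℕ → ℝ} (hf : Ab f) {σ : ℝ} (hσ : 1 < σ) {t : ℝ} (ht : 0 < t) (n : ℕ) :
    ‖f n * Real.exp (-(n * t))‖ ≤ σ ^ σ * t ^ (-σ) * (|f n| / (n : ℝ) ^ σ) := by
  rcases Nat.eq_zero_or_pos n with rfl | hn
  · rw [hf.1]
    simp
  have hn' : (0:ℝ) < n := by exact_mod_cast hn
  rw [norm_mul, Real.norm_of_nonneg (Real.exp_pos _).le, Real.norm_eq_abs]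
  have h1 := exp_bound (σ := σ) (x := n * t) (by linarith) (by positivity)
  rw [Real.mul_rpow hn'.le ht.le, Real.rpow_neg hn'.le] at h1
  calc |f n| * Real.exp (-(n * t)) ≤ |f n| * (σ ^ σ * (((n : ℝ) ^ σ)⁻¹ * t ^ (-σ))) :=
        mul_le_mul_of_nonneg_left h1 (abs_nonneg _)
    _ = _ := by rw [div_eq_mul_inv]; ring

lemma Ab.sm {f : ℕ → ℝ} (hf : Ab f) {t : ℝ} (ht : 0 < t) : Sm f t :=
  Summable.of_nonneg_of_le (fun _ => norm_nonneg _) (hf.term (show (1:ℝ) < 2 by norm_num) ht)
    ((hf.2 2 (by norm_num)).mul_left _)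

lemma Ab.bound {f : ℕ → ℝ} (hf : Ab f) {σ : ℝ} (hσ : 1 < σ) : ∃ C : ℝ, 0 ≤ C ∧ ∀ t : ℝ, 0 < t →
    |P f t| ≤ C * t ^ (-σ) := by
  refine ⟨σ ^ σ * ∑' n : ℕ, |f n| / (n : ℝ) ^ σ, ?_, fun t ht => ?_⟩
  · have : 0 ≤ ∑' n : ℕ, |f n| / (n : ℝ) ^ σ := tsum_nonneg fun n => by positivity
    have : (0:ℝ) < σ := by linarith
    positivity
  have h1 : |P f t| ≤ ∑' n : ℕ, ‖f n * Real.exp (-(n * t))‖ := by
    rw [← Real.norm_eq_abs]
    exact norm_tsum_le_tsum_norm (hf.sm ht)
  refine h1.trans ?_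
  refine ((hf.sm ht).tsum_le_tsum (hf.term hσ ht) ((hf.2 σ hσ).mul_left _)).trans (le_of_eq ?_)
  rw [tsum_mul_left]
  ring

lemma Ab.cont {f : ℕ → ℝ} (hf : Ab f) : ContinuousOn (P f) (Ioi 0) := by
  intro t ht
  have ht' : (0:ℝ) < t := ht
  have h : ContinuousOn (P f) (Ioi (t / 2)) := by
    refine continuousOn_tsum (u := fun n : ℕ => ‖f n * Real.exp (-(n * (t / 2)))‖) (fun n => by fun_prop)
      (hf.sm (by linarith)) fun n x hx => ?_
    rw [norm_mul, norm_mul]
    refine mul_le_mul_of_nonneg_left ?_ (norm_nonneg _)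
    rw [Real.norm_of_nonneg (Real.exp_pos _).le, Real.norm_of_nonneg (Real.exp_pos _).le]
    apply Real.exp_le_exp.2
    have hx' : t / 2 < x := hx
    have : (0:ℝ) ≤ n := Nat.cast_nonneg n
    nlinarith
  exact (h.continuousAt (Ioi_mem_nhds (by linarith))).continuousWithinAt

/-- the composition with `e ^ (-u)` -/
def Φ (f : ℕ → ℝ) (u : ℝ) : ℝ := P f (Real.exp (-u))

lemma Ab.cont' {f : ℕ → ℝ} (hf : Ab f) : Continuous (Φ f) := by
  unfold Φ
  refine hf.cont.comp_continuous (by fun_prop) fun u => Real.exp_pos _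

lemma exp_int {c : ℝ} (hc : 0 < c) : IntegrableOn (fun u : ℝ => Real.exp (-(c * u))) (Ioi 0) := by
  have := integrableOn_exp_mul_Ioi (show -c < 0 by linarith) 0
  refine this.congr_fun (fun u _ => ?_) measurableSet_Ioi
  simp only
  congr 1
  ring

lemma Ab.lint {f : ℕ → ℝ} (hf : Ab f) {w : ℝ} (hw : 1 < w) : LInt (Φ f) w := by
  obtain ⟨σ, h1, h2⟩ := exists_between hw
  obtain ⟨C, hC0, hC⟩ := hf.bound h1
  unfold LInt
  have hi := (exp_int (show 0 < w - σ by linarith)).const_mul C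
  refine Integrable.mono hi ((hf.cont'.mul (by fun_prop)).aestronglyMeasurable) ?_
  refine Eventually.of_forall fun u => ?_
  rw [norm_mul, norm_mul, Real.norm_of_nonneg (Real.exp_pos _).le, Real.norm_of_nonneg (Real.exp_pos _).le,
    Real.norm_of_nonneg hC0, Real.norm_eq_abs]
  have := hC (Real.exp (-u)) (Real.exp_pos _)
  calc |Φ f u| * Real.exp (-(w * u)) ≤ (C * Real.exp (-u) ^ (-σ)) * Real.exp (-(w * u)) :=
        mul_le_mul_of_nonneg_right this (Real.exp_pos _).le
    _ = C * (Real.exp (-u * -σ) * Real.exp (-(w * u))) := by rw [← Real.exp_mul]; ring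
    _ = _ := by
        rw [← Real.exp_add]
        congr 2
        ring

/-- the substitution `t = e ^ (-u)` -/
lemma subst (f : ℕ → ℝ) (s : ℂ) : lapC (Φ f) s = ∫ t in Ioo (0:ℝ) 1, (t : ℂ) ^ (s - 1) • (P f t : ℂ) := by
  have himg : (fun u : ℝ => Real.exp (-u)) '' Ioi 0 = Ioo (0:ℝ) 1 := by
    ext t
    constructor
    · rintro ⟨u, hu, rfl⟩
      exact ⟨Real.exp_pos _, exp_lt hu⟩
    · rintro ⟨h1, h2⟩
      refine ⟨-Real.log t, ?_, ?_⟩
      · show 0 < -Real.log t
        linarith [Real.log_neg h1 h2]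
      · simp only [neg_neg]
        exact Real.exp_log h1
  have h := integral_image_eq_integral_abs_deriv_smul (s := Ioi (0:ℝ)) (f := fun u : ℝ => Real.exp (-u))
    (f' := fun u => -Real.exp (-u)) measurableSet_Ioi (fun x _ => by
      have : HasDerivAt (fun u : ℝ => Real.exp (-u)) (Real.exp (-x) * -1) x := (hasDerivAt_neg x).exp
      rw [mul_neg_one] at this
      exact this.hasDerivWithinAt) (fun x _ y _ hxy => by
      have := Real.exp_injective hxy
      linarith) (fun t : ℝ => (t : ℂ) ^ (s - 1) • (P f t : ℂ))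
  rw [himg] at h
  rw [h]
  unfold lapC
  refine integral_congr_ae (Eventually.of_forall fun u => ?_)
  simp only [smul_eq_mul, abs_neg, abs_of_pos (Real.exp_pos _), real_smul]
  have e1 : ((Real.exp (-u) : ℝ) : ℂ) ^ (s - 1) = Complex.exp (-u * (s - 1)) := by
    rw [Complex.cpow_def_of_ne_zero (by exact_mod_cast (Real.exp_pos _).ne'), ← Complex.ofReal_log (Real.exp_pos _).le,
      Real.log_exp]
    push_cast
    rfl
  rw [e1]
  unfold Φ
  push_cast
  rw [show (Complex.exp (-(u:ℂ))) * (Complex.exp (-u * (s - 1)) * (P f (Real.exp (-u)) : ℂ)) =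
    (P f (Real.exp (-u)) : ℂ) * (Complex.exp (-(u:ℂ)) * Complex.exp (-u * (s - 1))) by ring, ← Complex.exp_add]
  congr 2
  ring

/-- the part of the Mellin transform at infinity -/
def F1 (f : ℕ → ℝ) (t : ℝ) : ℂ := (Ici (1:ℝ)).indicator (fun t => (P f t : ℂ)) t

/-- the part of the Mellin transform at zero -/
def F0 (f : ℕ → ℝ) (t : ℝ) : ℂ := (Ioo (0:ℝ) 1).indicator (fun t => (P f t : ℂ)) t

lemma Ab.loc {f : ℕ → ℝ} (hf : Ab f) : LocallyIntegrableOn (fun t => (P f t : ℂ)) (Ioi 0) :=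
  ContinuousOn.locallyIntegrableOn (Complex.continuous_ofReal.comp_continuousOn hf.cont) measurableSet_Ioi

lemma loc_ind {g : ℝ → ℂ} {S : Set ℝ} (hg : LocallyIntegrableOn g (Ioi 0)) (hS : MeasurableSet S) :
    LocallyIntegrableOn (S.indicator g) (Ioi 0) := by
  intro x hx
  obtain ⟨U, hU, hi⟩ := hg x hx
  exact ⟨U, hU, hi.indicator hS⟩

lemma Ab.F1_top {f : ℕ → ℝ} (hf : Ab f) {a : ℝ} (ha : 1 < a) : F1 f =O[atTop] (· ^ (-a) : ℝ → ℝ) := by
  obtain ⟨C, hC0, hC⟩ := hf.bound ha
  refine Asymptotics.IsBigO.of_bound C ?_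
  filter_upwards [eventually_gt_atTop (0:ℝ)] with t ht
  rw [Real.norm_of_nonneg (by positivity)]
  refine (norm_indicator_le_norm_self _ _).trans ?_
  rw [Complex.norm_real, Real.norm_eq_abs]
  exact hC t ht

lemma Ab.M1_diff {f : ℕ → ℝ} (hf : Ab f) (s : ℂ) : DifferentiableAt ℂ (mellin (F1 f)) s := by
  refine mellin_differentiableAt_of_isBigO_rpow (a := max 1 s.re + 1) (b := s.re - 1)
    (loc_ind hf.loc measurableSet_Ici) (hf.F1_top (by linarith [le_max_left 1 s.re]))
    (by linarith [le_max_right 1 s.re]) ?_ (by linarith)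
  refine Asymptotics.IsBigO.of_bound 1 ?_
  have : ∀ᶠ t : ℝ in 𝓝[>] 0, t < 1 := by
    have := Iio_mem_nhds (show (0:ℝ) < 1 by norm_num)
    exact mem_nhdsWithin_of_mem_nhds this
  filter_upwards [this] with t ht
  unfold F1
  rw [indicator_of_notMem (by simpa using ht)]
  simp

lemma Ab.conv1 {f : ℕ → ℝ} (hf : Ab f) {s : ℂ} : MellinConvergent (F1 f) s := by
  refine mellinConvergent_of_isBigO_rpow (a := max 1 s.re + 1) (b := s.re - 1)
    (loc_ind hf.loc measurableSet_Ici) (hf.F1_top (by linarith [le_max_left 1 s.re]))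
    (by linarith [le_max_right 1 s.re]) ?_ (by linarith)
  refine Asymptotics.IsBigO.of_bound 1 ?_
  have : ∀ᶠ t : ℝ in 𝓝[>] 0, t < 1 := by
    have := Iio_mem_nhds (show (0:ℝ) < 1 by norm_num)
    exact mem_nhdsWithin_of_mem_nhds this
  filter_upwards [this] with t ht
  unfold F1
  rw [indicator_of_notMem (by simpa using ht)]
  simp

lemma Ab.conv0 {f : ℕ → ℝ} (hf : Ab f) {s : ℂ} (hs : 1 < s.re) : MellinConvergent (F0 f) s := by
  obtain ⟨σ, h1, h2⟩ := exists_between hs
  obtain ⟨C, hC0, hC⟩ := hf.bound h1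
  refine mellinConvergent_of_isBigO_rpow (a := s.re + 1) (b := σ)
    (loc_ind hf.loc measurableSet_Ioo) ?_ (by linarith) ?_ h2
  · refine Asymptotics.IsBigO.of_bound 1 ?_
    filter_upwards [eventually_gt_atTop (1:ℝ)] with t ht
    unfold F0
    rw [indicator_of_notMem (by
      intro h
      exact absurd h.2 (by linarith))]
    simp
  · refine Asymptotics.IsBigO.of_bound C ?_
    filter_upwards [self_mem_nhdsWithin] with t ht
    have ht' : (0:ℝ) < t := ht
    rw [Real.norm_of_nonneg (by positivity)]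
    refine (norm_indicator_le_norm_self _ _).trans ?_
    rw [Complex.norm_real, Real.norm_eq_abs]
    exact hC t ht'

lemma mellin0 (f : ℕ → ℝ) (s : ℂ) : mellin (F0 f) s = lapC (Φ f) s := by
  rw [subst]
  unfold mellin F0
  have : ∀ t : ℝ, (t : ℂ) ^ (s - 1) • (Ioo (0:ℝ) 1).indicator (fun t => (P f t : ℂ)) t =
      (Ioo (0:ℝ) 1).indicator (fun t : ℝ => (t : ℂ) ^ (s - 1) • (P f t : ℂ)) t := by
    intro t
    by_cases h : t ∈ Ioo (0:ℝ) 1
    · rw [indicator_of_mem h, indicator_of_mem h]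
    · rw [indicator_of_notMem h, indicator_of_notMem h, smul_zero]
  simp_rw [this]
  rw [setIntegral_indicator measurableSet_Ioo, inter_eq_self_of_subset_right Ioo_subset_Ioi_self]

/-- the Mellin transform of the power series -/
lemma Ab.mellin {f : ℕ → ℝ} (hf : Ab f) {s : ℂ} (hs : 1 < s.re) :
    lapC (Φ f) s + mellin (F1 f) s = Gamma s * L f s := by
  have h1 := hasSum_mellin (a := fun n : ℕ => (f n : ℂ)) (p := fun n : ℕ => (n : ℝ)) (F := fun t => (P f t : ℂ))
    (s := s) (fun n => by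
      rcases Nat.eq_zero_or_pos n with rfl | hn
      · left
        rw [hf.1]
        simp
      · right
        exact_mod_cast hn) (by linarith) (fun t ht => by
      have h2 := (hf.sm (show (0:ℝ) < t from ht)).of_norm.hasSum
      have h3 := Complex.hasSum_ofReal.2 h2
      refine h3.congr_fun fun n => ?_
      push_cast
      rw [neg_mul]) (by
      refine (hf.2 _ hs).congr fun n => ?_
      rw [Complex.norm_real, Real.norm_eq_abs])
  have h2 : Gamma s * L f s = ∑' n : ℕ, Gamma s * (f n : ℂ) / ((n : ℝ) : ℂ) ^ s := by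
    unfold L LSeries
    rw [← tsum_mul_left]
    refine tsum_congr fun n => ?_
    unfold LSeries.term
    split_ifs with h
    · rw [h, hf.1]
      simp
    · push_cast
      ring
  rw [h2, h1.tsum_eq, ← mellin0]
  have h3 := (hasMellin_add (hf.conv0 hs) (hf.conv1 (s := s))).2
  rw [← h3]
  unfold _root_.mellin
  refine setIntegral_congr_fun measurableSet_Ioi fun t ht => ?_
  have ht' : (0:ℝ) < t := ht
  simp only
  congr 1
  unfold F0 F1
  by_cases h : t < 1
  · rw [indicator_of_mem (show t ∈ Ioo (0:ℝ) 1 from ⟨ht', h⟩), indicator_of_notMem (by simpa using h), add_zero]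
  · rw [indicator_of_notMem (fun h' => h h'.2), indicator_of_mem (by simpa using h), zero_add]

/-- the elementary Laplace transform -/
lemma lapC_exp {κ : ℝ} {s : ℂ} (hs : κ < s.re) (K : ℝ) :
    lapC (fun u => K * Real.exp (κ * u)) s = K / (s - κ) := by
  unfold lapC
  have h := integral_exp_mul_complex_Ioi (a := (κ : ℂ) - s) (by simp; linarith) 0
  have e : ∀ u : ℝ, ((K * Real.exp (κ * u) : ℝ) : ℂ) * Complex.exp (-(s * u)) =
      (K : ℂ) * Complex.exp (((κ : ℂ) - s) * u) := by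
    intro u
    push_cast
    rw [mul_assoc, ← Complex.exp_add]
    congr 2
    ring
  simp_rw [e]
  rw [integral_const_mul, h]
  have hne : s - κ ≠ 0 := by
    intro h0
    have := congrArg Complex.re h0
    simp at this
    linarith
  have hne2 : (κ : ℂ) - s ≠ 0 := by
    intro h0
    apply hne
    linear_combination -h0
  simp
  field_simp
  ring

lemma lint_exp {κ w : ℝ} (hw : κ < w) (K : ℝ) : LInt (fun u => K * Real.exp (κ * u)) w := by
  unfold LInt
  refine ((exp_int (show 0 < w - κ by linarith)).const_mul K).congr (Eventually.of_forall fun u => ?_)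
  simp only
  rw [mul_assoc, ← Real.exp_add]
  congr 2
  ring

/-- **Landau's theorem** for power series at `e ^ (-t)`. -/
theorem landau_abel {f : ℕ → ℝ} (hf : Ab f) {κ K : ℝ}
    (hP : ∀ t : ℝ, 0 < t → t ≤ 1 → P f t ≤ K * t ^ (-κ)) {D : ℂ → ℂ}
    (hD : ∀ w : ℝ, κ < w → AnalyticAt ℂ D w) (hκ : 0 < κ) (hD1 : ∀ w : ℝ, 1 < w → D w = L f w) :
    ∃ G : ℂ → ℂ, DifferentiableOn ℂ G {s | κ < s.re} ∧ ∀ s : ℂ, κ < s.re → 1 < s.re → G s = Gamma s * L f s := by
  set φ : ℝ → ℝ := fun u => K * Real.exp (κ * u) - Φ f u with hφ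
  have hφm : Measurable φ := by
    have := hf.cont'
    exact (by fun_prop : Continuous φ).measurable
  have hφ0 : ∀ u : ℝ, 0 < u → 0 ≤ φ u := by
    intro u hu
    have h1 := hP (Real.exp (-u)) (Real.exp_pos _) (exp_lt hu).le
    rw [← Real.exp_mul, show -u * -κ = κ * u by ring] at h1
    simp only [hφ]
    unfold Φ
    linarith
  set w1 : ℝ := max 1 κ with hw1
  have h1 : ∀ w > w1, LInt φ w := fun w hw =>
    (lint_exp (lt_of_le_of_lt (le_max_right 1 κ) hw) K).sub (hf.lint (lt_of_le_of_lt (le_max_left 1 κ) hw))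
  have hM1d : Differentiable ℂ (mellin (F1 f)) := fun z => hf.M1_diff z
  have hM1 : ∀ s : ℂ, AnalyticAt ℂ (mellin (F1 f)) s := fun s => hM1d.analyticAt s
  have hΓ : ∀ w : ℝ, 0 < w → AnalyticAt ℂ Gamma w := by
    intro w hw
    have ho : {s : ℂ | 0 < s.re} ∈ 𝓝 (w : ℂ) := (isOpen_lt continuous_const continuous_re).mem_nhds (by simpa using hw)
    refine DifferentiableOn.analyticAt (s := {s : ℂ | 0 < s.re}) (fun s hs => ?_) ho
    refine (differentiableAt_Gamma s fun m hm => ?_).differentiableWithinAt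
    have hs' : 0 < s.re := hs
    rw [hm] at hs'
    simp at hs'
    have : (0:ℝ) ≤ m := Nat.cast_nonneg m
    linarith
  -- the function on the real axis
  set gC : ℂ → ℂ := fun s => K / (s - κ) - Gamma s * D s + mellin (F1 f) s with hgC
  set g : ℝ → ℝ := fun w => (gC w).re with hg
  have hgCan : ∀ w : ℝ, κ < w → AnalyticAt ℂ gC w := by
    intro w hw
    have hne : (w : ℂ) - κ ≠ 0 := by
      intro h0
      have := congrArg Complex.re h0
      simp at this
      linarith
    have a1 : AnalyticAt ℂ (fun s : ℂ => (K : ℂ) / (s - κ)) w :=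
      analyticAt_const.div (analyticAt_id.sub analyticAt_const) hne
    exact (a1.sub ((hΓ w (by linarith)).mul (hD w hw))).add (hM1 w)
  have hgan : ∀ w > κ, AnalyticAt ℝ g w := fun w hw => (hgCan w hw).re_ofReal
  have hlapC : ∀ s : ℂ, w1 < s.re → lapC φ s = K / (s - κ) - Gamma s * L f s + mellin (F1 f) s := by
    intro s hs
    have b1 : 1 < s.re := lt_of_le_of_lt (le_max_left 1 κ) hs
    have b2 : κ < s.re := lt_of_le_of_lt (le_max_right 1 κ) hs
    have h2 : lapC φ s = lapC (fun u => K * Real.exp (κ * u)) s - lapC (Φ f) s := by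
      unfold lapC
      rw [← integral_sub (LInt.complex (by fun_prop) (lint_exp b2 K)) (LInt.complex hf.cont'.measurable (hf.lint b1))]
      congr 1
      funext u
      simp only [hφ]
      push_cast
      ring
    rw [h2, lapC_exp b2, ← hf.mellin b1]
    ring
  have heq : ∀ w > w1, κ < w → lap φ w = g w := by
    intro w hw hw2
    have h2 := hlapC w (by simpa using hw)
    rw [lapC_ofReal, ← hD1 w (lt_of_le_of_lt (le_max_left 1 κ) hw)] at h2
    have h3 : g w = (gC w).re := rfl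
    rw [h3, show gC w = K / ((w : ℂ) - κ) - Gamma w * D w + mellin (F1 f) w from rfl, ← h2, Complex.ofReal_re]
  obtain ⟨hL, -⟩ := Pool.Agent.TH988.RB.landau_lap hφm hφ0 h1 hgan heq
  refine ⟨fun s => K / (s - κ) - lapC φ s + mellin (F1 f) s, fun s hs => ?_, fun s hs1 hs2 => ?_⟩
  · have hs' : κ < s.re := hs
    have hne : s - κ ≠ 0 := by
      intro h0
      have := congrArg Complex.re h0
      simp at this
      linarith
    have a1 : DifferentiableAt ℂ (fun s : ℂ => (K : ℂ) / (s - κ)) s :=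
      (differentiableAt_const _).div (differentiableAt_id.sub (differentiableAt_const _)) hne
    exact ((a1.sub (lapC_differentiableAt_pos hφm hφ0 hL hs')).add (hM1 s).differentiableAt).differentiableWithinAt
  · have hs3 : w1 < s.re := max_lt hs2 hs1
    simp only
    rw [hlapC s hs3]
    ring

end

end Pool.Agent.L5helper6.AD
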